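import Mathlib

set_option autoImplicit false

namespace Pool.Agent.Lib.MP_aad05f_lc

/-- The clique graph `K(H)` of `H`: its vertices are the cliques of `H` (the maximal complete
sets of vertices), and two different cliques are adjacent when they share a vertex. -/
def cliqueGraph {W : Type} (H : SimpleGraph W) :
    SimpleGraph {C : Set W // Maximal H.IsClique C} where
  Adj C D := C ≠ D ∧ ((C : Set W) ∩ (D : Set W)).Nonempty
  symm := ⟨fun C D h => ⟨h.1.symm, by rw [Set.inter_comm]; exact h.2⟩⟩
  loopless := ⟨fun C h => h.1 rfl⟩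

/-- `G` is a clique graph: it is isomorphic to `K(H)` for some finite graph `H`. -/
def IsCliqueGraph {V : Type} (G : SimpleGraph V) : Prop :=
  ∃ (W : Type) (_ : Finite W) (H : SimpleGraph W), Nonempty (G ≃g cliqueGraph H)

/-- A Roberts-Spencer family: complete sets covering all edges and with the Helly property. -/
structure RSFamily {V : Type} (G : SimpleGraph V) (W : Type) where
  F : W → Set V
  complete : ∀ x, G.IsClique (F x)
  nonempty : ∀ x, (F x).Nonempty
  cover : ∀ v w, G.Adj v w → ∃ x, v ∈ F x ∧ w ∈ F x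
  helly : ∀ X : Set W, X.Nonempty → (∀ x ∈ X, ∀ y ∈ X, (F x ∩ F y).Nonempty) →
    ∃ v, ∀ x ∈ X, v ∈ F x

theorem exists_rsFamily_of_isCliqueGraph {V : Type} {G : SimpleGraph V}
    (h : IsCliqueGraph G) : ∃ (W : Type), Nonempty (RSFamily G W) := by
  obtain ⟨W, hW, H, ⟨e⟩⟩ := h
  have hmax : ∀ X : Set W, H.IsClique X → ∃ v, X ⊆ ((e v : {C : Set W // Maximal H.IsClique C}) : Set W) := by
    intro X hX
    obtain ⟨C, hXC, hC⟩ := (Set.toFinite {s : Set W | H.IsClique s}).exists_le_maximal
      (show X ∈ {s : Set W | H.IsClique s} from hX)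
    refine ⟨e.symm ⟨C, hC⟩, ?_⟩
    simpa using hXC
  refine ⟨W, ⟨⟨fun x => {v | x ∈ ((e v : {C : Set W // Maximal H.IsClique C}) : Set W)}, ?_, ?_, ?_, ?_⟩⟩⟩
  · intro x v hv w hw hvw
    rw [← e.map_adj_iff]
    exact ⟨fun h => hvw (e.injective h), ⟨x, hv, hw⟩⟩
  · intro x
    obtain ⟨v, hv⟩ := hmax {x} (by simp)
    exact ⟨v, hv (by simp)⟩
  · intro v w hvw
    rw [← e.map_adj_iff] at hvw
    obtain ⟨x, hx⟩ := hvw.2
    exact ⟨x, hx.1, hx.2⟩
  · intro X hne hX
    have hcl : H.IsClique X := by
      intro x hx y hy hxy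
      obtain ⟨v, hv1, hv2⟩ := hX x hx y hy
      exact (e v).2.1 hv1 hv2 hxy
    obtain ⟨v, hv⟩ := hmax X hcl
    exact ⟨v, fun x hx => hv hx⟩

/-- the auxiliary root graph of the Roberts-Spencer construction -/
def rsRoot {V W : Type} (F : W → Set V) : SimpleGraph (W ⊕ V) where
  Adj u v := match u, v with
    | .inl x, .inl y => x ≠ y ∧ (F x ∩ F y).Nonempty
    | .inl x, .inr v => v ∈ F x
    | .inr v, .inl x => v ∈ F x
    | .inr _, .inr _ => False
  symm := ⟨by
    rintro (x | v) (y | w) h
    · exact ⟨h.1.symm, by rw [Set.inter_comm]; exact h.2⟩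
    · exact h
    · exact h
    · exact h⟩
  loopless := ⟨by
    rintro (x | v) h
    · exact h.1 rfl
    · exact h⟩

theorem isCliqueGraph_of_rsFamily {V : Type} [Finite V] [Nonempty V] {G : SimpleGraph V}
    {W : Type} [Finite W] (R : RSFamily G W) : IsCliqueGraph G := by
  classical
  set H := rsRoot R.F with hH
  let C : V → Set (W ⊕ V) := fun v => {u | match u with
    | .inl x => v ∈ R.F x
    | .inr w => w = v}
  have hCcl : ∀ v, H.IsClique (C v) := by
    rintro v (x | w) hx (y | w') hy hne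
    · exact ⟨fun h => hne (by rw [h]), ⟨v, hx, hy⟩⟩
    · have : w' = v := hy
      subst this
      exact hx
    · have : w = v := hx
      subst this
      exact hy
    · exfalso
      have h1 : w = v := hx
      have h2 : w' = v := hy
      exact hne (by rw [h1, h2])
  have hsub : ∀ v (D : Set (W ⊕ V)), H.IsClique D → Sum.inr v ∈ D → D ⊆ C v := by
    rintro v D hD hv (x | w) hu
    · have := hD hv hu (by simp)
      exact this
    · by_contra hne
      have hne' : w ≠ v := hne
      have := hD hv hu (by simpa using fun h => hne' h.symm)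
      exact this
  have hCmax : ∀ v, Maximal H.IsClique (C v) := by
    intro v
    refine ⟨hCcl v, fun D hD hCD => ?_⟩
    exact hsub v D hD (hCD (show Sum.inr v ∈ C v from rfl))
  have hsurj : ∀ D : Set (W ⊕ V), Maximal H.IsClique D → ∃ v, D = C v := by
    intro D hD
    by_cases h1 : ∃ v, Sum.inr v ∈ D
    · obtain ⟨v, hv⟩ := h1
      exact ⟨v, Set.Subset.antisymm (hsub v D hD.1 hv) (hD.2 (hCcl v) (hsub v D hD.1 hv))⟩
    · push Not at h1
      by_cases h2 : ∃ x, Sum.inl x ∈ D
      · obtain ⟨x0, hx0⟩ := h2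
        obtain ⟨v, hv⟩ := R.helly {x | Sum.inl x ∈ D} ⟨x0, hx0⟩ (by
          intro x hx y hy
          by_cases hxy : x = y
          · subst hxy
            simpa using R.nonempty x
          · exact (hD.1 hx hy (by simpa using hxy)).2)
        have hDC : D ⊆ C v := by
          rintro (x | w) hu
          · exact hv x hu
          · exact absurd hu (h1 w)
        exact ⟨v, Set.Subset.antisymm hDC (hD.2 (hCcl v) hDC)⟩
      · push Not at h2
        obtain ⟨v⟩ := ‹Nonempty V›
        have hDe : D ⊆ C v := by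
          rintro (x | w) hu
          · exact absurd hu (h2 x)
          · exact absurd hu (h1 w)
        exact ⟨v, Set.Subset.antisymm hDe (hD.2 (hCcl v) hDe)⟩
  have hinj : Function.Injective (fun v => (⟨C v, hCmax v⟩ : {C : Set (W ⊕ V) // Maximal H.IsClique C})) := by
    intro v w h
    have h1 : C v = C w := congrArg Subtype.val h
    have h2 : Sum.inr v ∈ C w := by rw [← h1]; exact rfl
    exact h2
  refine ⟨W ⊕ V, inferInstance, H, ⟨⟨Equiv.ofBijective (fun v => ⟨C v, hCmax v⟩) ⟨hinj, ?_⟩, ?_⟩⟩⟩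
  · rintro ⟨D, hD⟩
    obtain ⟨v, hv⟩ := hsurj D hD
    exact ⟨v, Subtype.ext hv.symm⟩
  · intro v w
    constructor
    · rintro ⟨hne, ⟨u, hu1, hu2⟩⟩
      have hvw : v ≠ w := fun h => hne (by rw [h])
      rcases u with x | u
      · exact R.complete x hu1 hu2 hvw
      · exact absurd ((show u = v from hu1).symm.trans (show u = w from hu2)) hvw
    · intro hadj
      obtain ⟨x, hx1, hx2⟩ := R.cover v w hadj
      exact ⟨fun h => hadj.ne (hinj h), ⟨Sum.inl x, hx1, hx2⟩⟩

end Pool.Agent.Lib.MP_aad05f_lc
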