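import Mathlib
import Pool.Agent.Lib.MP_aad05f_lc.Graph

set_option autoImplicit false

namespace Pool.Agent.Lib.MP_aad05f_lc

/-- The split graph on `K ⊕ S`: `K` is complete, `S` is stable, and `s ∈ S` is adjacent exactly
to the members of `N s`. -/
def splitGraph {K S : Type} (N : S → Set K) : SimpleGraph (K ⊕ S) where
  Adj u v := match u, v with
    | .inl a, .inl b => a ≠ b
    | .inl a, .inr s => a ∈ N s
    | .inr s, .inl a => a ∈ N s
    | .inr _, .inr _ => False
  symm := ⟨by
    rintro (a | s) (b | t) h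
    · exact fun h' => h h'.symm
    · exact h
    · exact h
    · exact h⟩
  loopless := ⟨by
    rintro (a | s) h
    · exact h rfl
    · exact h⟩

section Sufficient

variable {K S : Type} (N : S → Set K)

/-- If every neighbourhood contains a path of length two of a triangle-free graph on `K`
then the split graph is a clique graph. -/
theorem isCliqueGraph_of_triangleFree [Finite K] [Nonempty K] [Finite S] (P : K → K → Prop)
    (hsymm : ∀ a b, P a b → P b a)
    (hfree : ∀ a b c, P a b → P b c → P a c → False)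
    (hN : ∀ s, ∃ a b c, N s = {a, b, c} ∧ P a b ∧ P b c) :
    IsCliqueGraph (splitGraph N) := by
  classical
  choose a b c hN hab hbc using hN
  have hloop : ∀ x, ¬ P x x := fun x h => hfree x x x h h h
  -- the traces
  let tr : S × Bool → Set K := fun q => if q.2 then {b q.1, c q.1} else {a q.1, b q.1}
  let F : Option (S × Bool) → Set (K ⊕ S) := fun o => match o with
    | none => Set.range Sum.inl
    | some q => {u | match u with
      | .inl x => x ∈ tr q
      | .inr s => s = q.1}
  have htr : ∀ q : S × Bool, ∃ x y, tr q = {x, y} ∧ P x y := by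
    rintro ⟨s, _ | _⟩
    · exact ⟨a s, b s, by simp [tr], hab s⟩
    · exact ⟨b s, c s, by simp [tr], hbc s⟩
  have htrN : ∀ (q : S × Bool) (x : K), x ∈ tr q → x ∈ N q.1 := by
    rintro ⟨s, _ | _⟩ x hx
    · simp only [tr, Bool.false_eq_true, if_false] at hx
      rw [hN s]
      rcases hx with h | h
      · simp [h]
      · simp only [Set.mem_singleton_iff] at h
        simp [h]
    · simp only [tr, if_true] at hx
      rw [hN s]
      rcases hx with h | h
      · simp [h]
      · simp only [Set.mem_singleton_iff] at h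
        simp [h]
  -- intersecting members have intersecting traces
  have hint : ∀ q r : S × Bool, (F (some q) ∩ F (some r)).Nonempty → (tr q ∩ tr r).Nonempty := by
    rintro q r ⟨u | s, h1, h2⟩
    · exact ⟨u, h1, h2⟩
    · have e1 : s = q.1 := h1
      have e2 : s = r.1 := h2
      have hb : ∀ q : S × Bool, b q.1 ∈ tr q := by
        rintro ⟨s, _ | _⟩ <;> simp [tr]
      refine ⟨b q.1, hb q, ?_⟩
      rw [← e1, e2]
      exact hb r
  have R : RSFamily (splitGraph N) (Option (S × Bool)) := by
    refine ⟨F, ?_, ?_, ?_, ?_⟩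
    · rintro (_ | q) u hu v hv huv
      · obtain ⟨x, rfl⟩ := hu
        obtain ⟨y, rfl⟩ := hv
        exact fun h => huv (by rw [h])
      · rcases u with x | s <;> rcases v with y | t
        · exact fun h => huv (by rw [h])
        · have : t = q.1 := hv
          subst this
          exact htrN q x hu
        · have : s = q.1 := hu
          subst this
          exact htrN q y hv
        · have h1 : s = q.1 := hu
          have h2 : t = q.1 := hv
          exact absurd (by rw [h1, h2]) huv
    · rintro (_ | q)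
      · exact ⟨Sum.inl (Classical.arbitrary K), _, rfl⟩
      · exact ⟨Sum.inr q.1, rfl⟩
    · have key : ∀ (x : K) (s : S), x ∈ N s → ∃ o, (Sum.inl x) ∈ F o ∧ (Sum.inr s) ∈ F o := by
        intro x s hx
        rw [hN s] at hx
        rcases hx with h | h | h
        · exact ⟨some (s, false), by simp [F, tr, h], rfl⟩
        · exact ⟨some (s, false), by simp [F, tr, h], rfl⟩
        · simp only [Set.mem_singleton_iff] at h
          exact ⟨some (s, true), by simp [F, tr, h], rfl⟩
      rintro (x | s) (y | t) h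
      · exact ⟨none, ⟨x, rfl⟩, ⟨y, rfl⟩⟩
      · exact key x t h
      · obtain ⟨o, h1, h2⟩ := key y s h
        exact ⟨o, h2, h1⟩
      · exact absurd h (fun h => h)
    · intro X hne hX
      by_cases hsome : ∃ q, some q ∈ X
      · obtain ⟨q, hq⟩ := hsome
        -- a common vertex of all traces suffices
        suffices hsuff : ∃ x : K, ∀ r, some r ∈ X → x ∈ tr r by
          obtain ⟨x, hx⟩ := hsuff
          refine ⟨Sum.inl x, ?_⟩
          rintro (_ | r) hr
          · exact ⟨x, rfl⟩
          · exact hx r hr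
        obtain ⟨x, y, hxy, hPxy⟩ := htr q
        by_contra hcon
        push Not at hcon
        obtain ⟨r1, hr1, hx1⟩ := hcon x
        obtain ⟨r2, hr2, hy2⟩ := hcon y
        obtain ⟨x1, y1, e1, hP1⟩ := htr r1
        obtain ⟨x2, y2, e2, hP2⟩ := htr r2
        -- `y ∈ tr r1`, `x ∈ tr r2`
        have hy1 : y ∈ tr r1 := by
          obtain ⟨z, hz, hz1⟩ := hint q r1 (hX _ hq _ hr1)
          rw [hxy] at hz
          rcases hz with h | h
          · exact absurd (h ▸ hz1) hx1
          · simp only [Set.mem_singleton_iff] at h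
            exact h ▸ hz1
        have hx2 : x ∈ tr r2 := by
          obtain ⟨z, hz, hz1⟩ := hint q r2 (hX _ hq _ hr2)
          rw [hxy] at hz
          rcases hz with h | h
          · exact h ▸ hz1
          · simp only [Set.mem_singleton_iff] at h
            exact absurd (h ▸ hz1) hy2
        obtain ⟨z, hz1, hz2⟩ := hint r1 r2 (hX _ hr1 _ hr2)
        have hzx : z ≠ x := fun h => hx1 (h ▸ hz1)
        have hzy : z ≠ y := fun h => hy2 (h ▸ hz2)
        have hxyne : x ≠ y := fun h => hloop y (h ▸ hPxy)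
        -- `tr r1 = {y, z}` and `tr r2 = {x, z}`
        have hPyz : P y z := by
          rw [e1] at hz1 hy1
          simp only [Set.mem_insert_iff, Set.mem_singleton_iff] at hz1 hy1
          rcases hz1 with h | h <;> rcases hy1 with h' | h'
          · exact absurd (h.trans h'.symm) hzy
          · rw [h, h']; exact hsymm _ _ hP1
          · rw [h, h']; exact hP1
          · exact absurd (h.trans h'.symm) hzy
        have hPxz : P x z := by
          rw [e2] at hz2 hx2
          simp only [Set.mem_insert_iff, Set.mem_singleton_iff] at hz2 hx2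
          rcases hz2 with h | h <;> rcases hx2 with h' | h'
          · exact absurd (h.trans h'.symm) hzx
          · rw [h, h']; exact hsymm _ _ hP2
          · rw [h, h']; exact hP2
          · exact absurd (h.trans h'.symm) hzx
        exact hfree x y z hPxy hPyz hPxz
      · refine ⟨Sum.inl (Classical.arbitrary K), ?_⟩
        rintro (_ | r) hr
        · exact ⟨_, rfl⟩
        · exact absurd ⟨r, hr⟩ hsome
  exact isCliqueGraph_of_rsFamily R

end Sufficient

section Necessary

variable {K S W : Type} {N : S → Set K} (R : RSFamily (splitGraph N) W)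

theorem RSFamily.mem_N {x : W} {a : K} {s : S} (h1 : Sum.inl a ∈ R.F x) (h2 : Sum.inr s ∈ R.F x) :
    a ∈ N s :=
  R.complete x h1 h2 (by simp)

theorem RSFamily.eq_S {x : W} {s t : S} (h1 : Sum.inr s ∈ R.F x) (h2 : Sum.inr t ∈ R.F x) :
    s = t := by
  by_contra hne
  exact R.complete x h1 h2 (by simpa using hne)

theorem RSFamily.helly3 (x y z : W) (h1 : (R.F x ∩ R.F y).Nonempty) (h2 : (R.F x ∩ R.F z).Nonempty)
    (h3 : (R.F y ∩ R.F z).Nonempty) : ∃ v, v ∈ R.F x ∧ v ∈ R.F y ∧ v ∈ R.F z := by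
  obtain ⟨v, hv⟩ := R.helly {x, y, z} ⟨x, by simp⟩ (by
    have hx := R.nonempty x
    have hy := R.nonempty y
    have hz := R.nonempty z
    have h1' := h1
    have h2' := h2
    have h3' := h3
    rw [Set.inter_comm] at h1' h2' h3'
    rintro p (rfl | rfl | rfl) q (rfl | rfl | rfl) <;> simp_all)
  exact ⟨v, hv x (by simp), hv y (by simp), hv z (by simp)⟩

/-- some member of the family contains `s` and all of `N s` -/
def RSFamily.Kept (s : S) : Prop := ∃ x, Sum.inr s ∈ R.F x ∧ ∀ a ∈ N s, Sum.inl a ∈ R.F x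

/-- some member of the family contains `s` and meets `K` exactly in `{a, b}` -/
def RSFamily.Two (s : S) (a b : K) : Prop :=
  ∃ x, Sum.inr s ∈ R.F x ∧ Sum.inl a ∈ R.F x ∧ Sum.inl b ∈ R.F x ∧
    ∀ c, Sum.inl c ∈ R.F x → c = a ∨ c = b

variable {R}

theorem RSFamily.Two.symm {s : S} {a b : K} (h : R.Two s a b) : R.Two s b a := by
  obtain ⟨x, h1, h2, h3, h4⟩ := h
  exact ⟨x, h1, h3, h2, fun c hc => (h4 c hc).symm⟩

theorem RSFamily.two_or_two {s : S} {a b c : K} (hN : N s = {a, b, c}) (hab : a ≠ b) (hac : a ≠ c)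
    (hbc : b ≠ c) (hk : ¬ R.Kept s) : R.Two s a b ∨ R.Two s b c := by
  by_contra hcon
  push Not at hcon
  obtain ⟨hc1, hc2⟩ := hcon
  have ha : a ∈ N s := by rw [hN]; simp
  have hb : b ∈ N s := by rw [hN]; simp
  obtain ⟨xb, hxb1, hxb2⟩ := R.cover (Sum.inl b) (Sum.inr s) hb
  obtain ⟨xa, hxa1, hxa2⟩ := R.cover (Sum.inl a) (Sum.inr s) ha
  obtain ⟨y, hy1, hy2⟩ := R.cover (Sum.inl a) (Sum.inl b) hab
  -- no member contains s, a, b or s, b, c
  have nab : ∀ x, Sum.inr s ∈ R.F x → Sum.inl a ∈ R.F x → Sum.inl b ∈ R.F x → False := by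
    intro x h1 h2 h3
    by_cases h4 : Sum.inl c ∈ R.F x
    · apply hk
      refine ⟨x, h1, ?_⟩
      intro d hd
      rw [hN] at hd
      rcases hd with h | h | h
      · rw [h]; exact h2
      · rw [h]; exact h3
      · simp only [Set.mem_singleton_iff] at h
        rw [h]; exact h4
    · apply hc1
      refine ⟨x, h1, h2, h3, ?_⟩
      intro d hd
      have := R.mem_N hd h1
      rw [hN] at this
      rcases this with h | h | h
      · exact Or.inl h
      · exact Or.inr h
      · simp only [Set.mem_singleton_iff] at h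
        exact absurd (h ▸ hd) h4
  have nbc : ∀ x, Sum.inr s ∈ R.F x → Sum.inl b ∈ R.F x → Sum.inl c ∈ R.F x → False := by
    intro x h1 h2 h3
    by_cases h4 : Sum.inl a ∈ R.F x
    · exact nab x h1 h4 h2
    · apply hc2
      refine ⟨x, h1, h2, h3, ?_⟩
      intro d hd
      have := R.mem_N hd h1
      rw [hN] at this
      rcases this with h | h | h
      · exact absurd (h ▸ hd) h4
      · exact Or.inl h
      · simp only [Set.mem_singleton_iff] at h
        exact Or.inr h
  obtain ⟨v, hv1, hv2, hv3⟩ := R.helly3 xa xb y ⟨_, hxa2, hxb2⟩ ⟨_, hxa1, hy1⟩ ⟨_, hxb1, hy2⟩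
  rcases v with d | t
  · have hd := R.mem_N hv2 hxb2
    rw [hN] at hd
    rcases hd with h | h | h
    · subst h
      exact nab xb hxb2 hv2 hxb1
    · subst h
      exact nab xa hxa2 hxa1 hv1
    · simp only [Set.mem_singleton_iff] at h
      subst h
      exact nbc xb hxb2 hxb1 hv2
  · have : t = s := R.eq_S hv1 hxa2
    subst this
    exact nab y hv3 hy1 hy2

/-- three pairs forming a triangle must come from one and the same `s` -/
theorem RSFamily.conflict_pairs {s s' s'' : S} {a b c : K} (hab : a ≠ b) (hac : a ≠ c)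
    (hbc : b ≠ c) (h1 : R.Two s a b) (h2 : R.Two s' b c) (h3 : R.Two s'' c a) : s = s' ∧ s' = s'' := by
  obtain ⟨x, x1, x2, x3, x4⟩ := h1
  obtain ⟨y, y1, y2, y3, y4⟩ := h2
  obtain ⟨z, z1, z2, z3, z4⟩ := h3
  obtain ⟨v, hv1, hv2, hv3⟩ := R.helly3 x y z ⟨_, x3, y2⟩ ⟨_, x2, z3⟩ ⟨_, y3, z2⟩
  rcases v with d | t
  · exfalso
    rcases x4 d hv1 with h | h
    · rcases y4 d hv2 with h' | h'
      · exact hab (h.symm.trans h')
      · exact hac (h.symm.trans h')
    · rcases z4 d hv3 with h' | h'
      · exact hbc (h.symm.trans h')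
      · exact hab (h'.symm.trans h)
  · exact ⟨(R.eq_S x1 hv1).trans (R.eq_S hv2 y1), (R.eq_S y1 hv2).trans (R.eq_S hv3 z1)⟩

/-- a kept neighbourhood excludes a path of length two through an outside vertex -/
theorem RSFamily.conflict_path {s s' s'' : S} {a b e : K} (hab : a ≠ b) (hk : R.Kept s)
    (ha : a ∈ N s) (hb : b ∈ N s) (he : e ∉ N s) (h1 : R.Two s' a e) (h2 : R.Two s'' e b) :
    False := by
  obtain ⟨x, x1, x2⟩ := hk
  obtain ⟨y, y1, y2, y3, y4⟩ := h1
  obtain ⟨z, z1, z2, z3, z4⟩ := h2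
  obtain ⟨v, hv1, hv2, hv3⟩ := R.helly3 x y z ⟨_, x2 a ha, y2⟩ ⟨_, x2 b hb, z3⟩ ⟨_, y3, z2⟩
  rcases v with d | t
  · rcases y4 d hv2 with h | h
    · rcases z4 d hv3 with h' | h'
      · exact he ((h' ▸ R.mem_N hv1 x1))
      · exact hab (h.symm.trans h')
    · exact he ((h ▸ R.mem_N hv1 x1))
  · have e1 : s = t := R.eq_S x1 hv1
    have e2 : t = s' := R.eq_S hv2 y1
    apply he
    rw [e1, e2]
    exact R.mem_N y3 y1

/-- two kept neighbourhoods exclude a pair joining their differences -/
theorem RSFamily.conflict_kept {s s' s'' : S} {u v w : K} (hk : R.Kept s) (hk' : R.Kept s')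
    (hu : u ∈ N s) (hu' : u ∉ N s') (hv : v ∈ N s') (hv' : v ∉ N s) (hw : w ∈ N s) (hw' : w ∈ N s')
    (h : R.Two s'' u v) : False := by
  obtain ⟨x, x1, x2⟩ := hk
  obtain ⟨y, y1, y2⟩ := hk'
  obtain ⟨z, z1, z2, z3, z4⟩ := h
  obtain ⟨t, ht1, ht2, ht3⟩ := R.helly3 x y z ⟨_, x2 w hw, y2 w hw'⟩ ⟨_, x2 u hu, z2⟩ ⟨_, y2 v hv, z3⟩
  rcases t with d | t
  · rcases z4 d ht3 with h | h
    · exact hu' (h ▸ R.mem_N ht2 y1)
    · exact hv' (h ▸ R.mem_N ht1 x1)
  · have e1 : s = t := R.eq_S x1 ht1
    have e2 : t = s' := R.eq_S ht2 y1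
    exact hu' (by rw [← e2, ← e1]; exact hu)

/-- `a, b, c, d` are four vertices of `K` all of whose triples are neighbourhoods -/
structure IsQuad (N : S → Set K) (a b c d : K) (sa sb sc sd : S) : Prop where
  hab : a ≠ b
  hac : a ≠ c
  had : a ≠ d
  hbc : b ≠ c
  hbd : b ≠ d
  hcd : c ≠ d
  ha : N sa = {b, c, d}
  hb : N sb = {a, c, d}
  hc : N sc = {a, b, d}
  hd : N sd = {a, b, c}

theorem IsQuad.swapab {a b c d : K} {sa sb sc sd : S} (h : IsQuad N a b c d sa sb sc sd) :
    IsQuad N b a c d sb sa sc sd := by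
  obtain ⟨h1, h2, h3, h4, h5, h6, ha, hb, hc, hd⟩ := h
  refine ⟨h1.symm, h4, h5, h2, h3, h6, hb, ha, ?_, ?_⟩
  · rw [hc, Set.insert_comm]
  · rw [hd, Set.insert_comm]

theorem IsQuad.swapbc {a b c d : K} {sa sb sc sd : S} (h : IsQuad N a b c d sa sb sc sd) :
    IsQuad N a c b d sa sc sb sd := by
  obtain ⟨h1, h2, h3, h4, h5, h6, ha, hb, hc, hd⟩ := h
  refine ⟨h2, h1, h3, h4.symm, h6, h5, ?_, hc, hb, ?_⟩
  · rw [ha, Set.insert_comm]
  · rw [hd, Set.pair_comm]

theorem IsQuad.swapcd {a b c d : K} {sa sb sc sd : S} (h : IsQuad N a b c d sa sb sc sd) :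
    IsQuad N a b d c sa sb sd sc := by
  obtain ⟨h1, h2, h3, h4, h5, h6, ha, hb, hc, hd⟩ := h
  refine ⟨h1, h3, h2, h5, h4, h6.symm, ?_, ?_, hd, hc⟩
  · rw [ha, Set.pair_comm]
  · rw [hb, Set.pair_comm]

variable (R)

theorem RSFamily.quad_helly4 {a b c d : K} {sa sb sc sd : S} (h : IsQuad N a b c d sa sb sc sd)
    (ka : R.Kept sa) (kb : R.Kept sb) (kc : R.Kept sc) (kd : R.Kept sd) : False := by
  obtain ⟨xa, xa1, xa2⟩ := ka
  obtain ⟨xb, xb1, xb2⟩ := kb
  obtain ⟨xc, xc1, xc2⟩ := kc
  obtain ⟨xd, xd1, xd2⟩ := kd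
  have ha := h.ha
  have hb := h.hb
  have hc := h.hc
  have hd := h.hd
  have hcd : (R.F xc ∩ R.F xd).Nonempty := ⟨Sum.inl a, xc2 a (by rw [hc]; simp), xd2 a (by rw [hd]; simp)⟩
  have hbd : (R.F xb ∩ R.F xd).Nonempty := ⟨Sum.inl a, xb2 a (by rw [hb]; simp), xd2 a (by rw [hd]; simp)⟩
  have hbc : (R.F xb ∩ R.F xc).Nonempty := ⟨Sum.inl a, xb2 a (by rw [hb]; simp), xc2 a (by rw [hc]; simp)⟩
  have hac : (R.F xa ∩ R.F xc).Nonempty := ⟨Sum.inl b, xa2 b (by rw [ha]; simp), xc2 b (by rw [hc]; simp)⟩
  have had : (R.F xa ∩ R.F xd).Nonempty := ⟨Sum.inl b, xa2 b (by rw [ha]; simp), xd2 b (by rw [hd]; simp)⟩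
  have hab : (R.F xa ∩ R.F xb).Nonempty := ⟨Sum.inl c, xa2 c (by rw [ha]; simp), xb2 c (by rw [hb]; simp)⟩
  obtain ⟨v, hv⟩ := R.helly {xa, xb, xc, xd} ⟨xa, by simp⟩ (by
    have nx := R.nonempty xa
    have nb := R.nonempty xb
    have nc := R.nonempty xc
    have nd := R.nonempty xd
    have h1 := hab
    have h2 := hac
    have h3 := had
    have h4 := hbc
    have h5 := hbd
    have h6 := hcd
    rw [Set.inter_comm] at h1 h2 h3 h4 h5 h6
    rintro p (rfl | rfl | rfl | rfl) q (rfl | rfl | rfl | rfl) <;> simp_all)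
  have h1 := hv xa (by simp)
  have h2 := hv xb (by simp)
  have h3 := hv xc (by simp)
  have h4 := hv xd (by simp)
  rcases v with e | t
  · have e1 := R.mem_N h1 xa1
    have e2 := R.mem_N h2 xb1
    have e3 := R.mem_N h3 xc1
    have e4 := R.mem_N h4 xd1
    rw [ha] at e1
    rw [hb] at e2
    rw [hc] at e3
    rw [hd] at e4
    have n1 := h.hab
    have n2 := h.hac
    have n3 := h.had
    have n4 := h.hbc
    have n5 := h.hbd
    have n6 := h.hcd
    simp only [Set.mem_insert_iff, Set.mem_singleton_iff] at e1 e2 e3 e4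
    clear ha hb hc hd h1 h2 h3 h4 xa2 xb2 xc2 xd2 h
    rcases e1 with h1 | h1 | h1
    · subst h1
      rcases e2 with h2 | h2 | h2
      · exact n1 h2.symm
      · exact n4 h2
      · exact n5 h2
    · subst h1
      rcases e3 with h2 | h2 | h2
      · exact n2 h2.symm
      · exact n4 h2.symm
      · exact n6 h2
    · subst h1
      rcases e4 with h2 | h2 | h2
      · exact n3 h2.symm
      · exact n5 h2.symm
      · exact n6 h2.symm
  · have e1 := R.eq_S h1 xa1
    have e2 := R.eq_S h2 xb1
    have : N sa = N sb := by rw [← e1, ← e2]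
    rw [ha, hb] at this
    have hmem : b ∈ ({a, c, d} : Set K) := by rw [← this]; simp
    simp only [Set.mem_insert_iff, Set.mem_singleton_iff] at hmem
    rcases hmem with h' | h' | h'
    · exact h.hab h'.symm
    · exact h.hbc h'
    · exact h.hbd h'

/-- in a quad at most one of the four neighbourhoods is kept -/
theorem RSFamily.quad_not_two_kept {a b c d : K} {sa sb sc sd : S}
    (h : IsQuad N a b c d sa sb sc sd) (kc : R.Kept sc) (kd : R.Kept sd) : False := by
  have ha := h.ha
  have hb := h.hb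
  have hc := h.hc
  have hd := h.hd
  have n1 := h.hab
  have n2 := h.hac
  have n3 := h.had
  have n4 := h.hbc
  have n5 := h.hbd
  have n6 := h.hcd
  -- no pair `cd`
  have ncd : ∀ s, ¬ R.Two s c d := fun s h' =>
    RSFamily.conflict_kept (w := a) kd kc (by rw [hd]; simp) (by rw [hc]; simp [n2.symm, n4.symm, n6])
      (by rw [hc]; simp) (by rw [hd]; simp [n3.symm, n5.symm, n6.symm]) (by rw [hd]; simp)
      (by rw [hc]; simp) h'
  by_cases kb : R.Kept sb
  · have nbd : ∀ s, ¬ R.Two s b d := fun s h' =>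
      RSFamily.conflict_kept (w := a) kd kb (by rw [hd]; simp) (by rw [hb]; simp [n1.symm, n4, n5])
        (by rw [hb]; simp) (by rw [hd]; simp [n3.symm, n5.symm, n6.symm]) (by rw [hd]; simp)
        (by rw [hb]; simp) h'
    have nbc : ∀ s, ¬ R.Two s b c := fun s h' =>
      RSFamily.conflict_kept (w := a) kc kb (by rw [hc]; simp) (by rw [hb]; simp [n1.symm, n4, n5])
        (by rw [hb]; simp) (by rw [hc]; simp [n2.symm, n4.symm, n6]) (by rw [hc]; simp)
        (by rw [hb]; simp) h'
    by_cases ka : R.Kept sa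
    · exact R.quad_helly4 h ka kb kc kd
    · rcases RSFamily.two_or_two ha n4 n5 n6 ka with h' | h'
      · exact nbc _ h'
      · exact ncd _ h'
  · have t1 : R.Two sb a c := by
      rcases RSFamily.two_or_two hb n2 n3 n6 kb with h' | h'
      · exact h'
      · exact absurd h' (ncd _)
    have t2 : R.Two sb a d := by
      have hb' : N sb = {a, d, c} := by rw [hb, Set.pair_comm]
      rcases RSFamily.two_or_two hb' n3 n2 n6.symm kb with h' | h'
      · exact h'
      · exact absurd h'.symm (ncd _)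
    by_cases ka : R.Kept sa
    · exact RSFamily.conflict_kept (w := b) kd ka (by rw [hd]; simp) (by rw [ha]; simp [n1, n2, n3])
        (by rw [ha]; simp) (by rw [hd]; simp [n3.symm, n5.symm, n6.symm]) (by rw [hd]; simp)
        (by rw [ha]; simp) t2
    · have t3 : R.Two sa b c := by
        rcases RSFamily.two_or_two ha n4 n5 n6 ka with h' | h'
        · exact h'
        · exact absurd h' (ncd _)
      exact RSFamily.conflict_path (e := c) n1 kc (by rw [hc]; simp) (by rw [hc]; simp)
        (by rw [hc]; simp [n2.symm, n4.symm, n6]) t1 t3.symm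

theorem RSFamily.quad_not_kept {a b c d : K} {sa sb sc sd : S}
    (h : IsQuad N a b c d sa sb sc sd) : ¬ R.Kept sd := by
  intro kd
  have kc : ¬ R.Kept sc := fun kc => R.quad_not_two_kept h kc kd
  have kb : ¬ R.Kept sb := fun kb => R.quad_not_two_kept h.swapbc kb kd
  have ka : ¬ R.Kept sa := fun ka => R.quad_not_two_kept h.swapab.swapbc ka kd
  have ha := h.ha
  have hb := h.hb
  have hc := h.hc
  have hd := h.hd
  have n1 := h.hab
  have n2 := h.hac
  have n3 := h.had
  have n4 := h.hbc
  have n5 := h.hbd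
  have n6 := h.hcd
  have hdn : d ∉ N sd := by rw [hd]; simp [n3.symm, n5.symm, n6.symm]
  have had : a ∈ N sd := by rw [hd]; simp
  have hbd : b ∈ N sd := by rw [hd]; simp
  have hcd : c ∈ N sd := by rw [hd]; simp
  have c1 : ∀ s s', R.Two s a d → R.Two s' b d → False := fun s s' h1 h2 =>
    RSFamily.conflict_path n1 kd had hbd hdn h1 h2.symm
  have c2 : ∀ s s', R.Two s a d → R.Two s' c d → False := fun s s' h1 h2 =>
    RSFamily.conflict_path n2 kd had hcd hdn h1 h2.symm
  have c3 : ∀ s s', R.Two s b d → R.Two s' c d → False := fun s s' h1 h2 =>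
    RSFamily.conflict_path n4 kd hbd hcd hdn h1 h2.symm
  have hc' : N sc = {a, d, b} := by rw [hc, Set.pair_comm]
  have hb' : N sb = {a, d, c} := by rw [hb, Set.pair_comm]
  have ha' : N sa = {b, d, c} := by rw [ha, Set.pair_comm]
  rcases RSFamily.two_or_two hc' n3 n1 n5.symm kc with h' | h'
  · rcases RSFamily.two_or_two ha' n5 n4 n6.symm ka with h'' | h''
    · exact c1 _ _ h' h''
    · exact c2 _ _ h' h''.symm
  · rcases RSFamily.two_or_two hb' n3 n2 n6.symm kb with h'' | h''
    · exact c1 _ _ h'' h'.symm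
    · exact c3 _ _ h'.symm h''.symm

/-- the pair `ab` is present -/
def RSFamily.Pres (a b : K) : Prop := ∃ s, R.Two s a b

theorem RSFamily.pres_comm (a b : K) : R.Pres a b ↔ R.Pres b a :=
  ⟨fun ⟨s, h⟩ => ⟨s, h.symm⟩, fun ⟨s, h⟩ => ⟨s, h.symm⟩⟩

/-- at least two of the three pairs of a triple of a quad are present -/
theorem RSFamily.quad_two {a b c d : K} {sa sb sc sd : S} (h : IsQuad N a b c d sa sb sc sd) :
    R.Two sd a b ∨ R.Two sd b c :=
  RSFamily.two_or_two h.hd h.hab h.hac h.hbc (R.quad_not_kept h)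

/-- not all three pairs of a triple of a quad are present -/
theorem RSFamily.quad_not_three {a b c d : K} {sa sb sc sd : S}
    (h : IsQuad N a b c d sa sb sc sd) (h1 : R.Pres a b) (h2 : R.Pres b c) (h3 : R.Pres a c) :
    False := by
  -- reduce to a situation where `sd` contributes `ab` and `bc`
  have n1 := h.hab
  have n2 := h.hac
  have n3 := h.had
  have n4 := h.hbc
  have n5 := h.hbd
  have n6 := h.hcd
  obtain ⟨s1, h1⟩ := h1
  obtain ⟨s2, h2⟩ := h2
  obtain ⟨s3, h3⟩ := h3
  have e12 := RSFamily.conflict_pairs n1 n2 n4 h1 h2 h3.symm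
  -- all witnesses are the same vertex `s1`
  have hs2 : s1 = s2 := e12.1
  have hs3 : s1 = s3 := e12.1.trans e12.2
  subst hs2
  subst hs3
  have uab : ∀ s, R.Two s a b → s = s1 := fun s hs =>
    (RSFamily.conflict_pairs n1 n2 n4 hs h2 h3.symm).1
  have ubc : ∀ s, R.Two s b c → s = s1 := fun s hs =>
    (RSFamily.conflict_pairs n1 n2 n4 h1 hs h3.symm).1.symm
  have uac : ∀ s, R.Two s a c → s = s1 := fun s hs =>
    (RSFamily.conflict_pairs n1 n2 n4 h1 h2 hs.symm).2.symm
  have hsd : sd = s1 := by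
    rcases R.quad_two h with h' | h'
    · exact uab _ h'
    · exact ubc _ h'
  have hsc : sc ≠ s1 := by
    rw [← hsd]
    intro he
    have := h.hc
    rw [he, h.hd] at this
    have hm : c ∈ ({a, b, d} : Set K) := by rw [← this]; simp
    simp only [Set.mem_insert_iff, Set.mem_singleton_iff] at hm
    rcases hm with h' | h' | h'
    · exact n2 h'.symm
    · exact n4 h'.symm
    · exact n6 h'
  have hsb : sb ≠ s1 := by
    rw [← hsd]
    intro he
    have := h.hb
    rw [he, h.hd] at this
    have hm : b ∈ ({a, c, d} : Set K) := by rw [← this]; simp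
    simp only [Set.mem_insert_iff, Set.mem_singleton_iff] at hm
    rcases hm with h' | h' | h'
    · exact n1 h'.symm
    · exact n4 h'
    · exact n5 h'
  -- `sc` gives `ad` and `bd`; `sb` gives `ad`
  have kc := R.quad_not_kept h.swapcd
  have kb := R.quad_not_kept h.swapbc.swapcd
  have hc1 : N sc = {b, a, d} := by rw [h.hc, Set.insert_comm]
  have hc2 : N sc = {a, b, d} := h.hc
  have tbd : R.Two sc b d := by
    rcases RSFamily.two_or_two hc2 n1 n3 n5 kc with h' | h'
    · exact absurd (uab _ h') hsc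
    · exact h'
  have tad : R.Two sb a d := by
    have hb' : N sb = {c, a, d} := by rw [h.hb, Set.insert_comm]
    rcases RSFamily.two_or_two hb' n2.symm n6 n3 kb with h' | h'
    · exact absurd (uac _ h'.symm) hsb
    · exact h'
  have := RSFamily.conflict_pairs n1 n3 n5 h1 tbd tad.symm
  exact hsc this.1.symm

/-- in a quad the absent pairs form exactly one perfect matching -/
theorem RSFamily.quad_matching {a b c d : K} {sa sb sc sd : S}
    (h : IsQuad N a b c d sa sb sc sd) :
    (R.Pres a b ↔ R.Pres c d) ∧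
    ((¬ R.Pres a b ∧ R.Pres a c ∧ R.Pres a d) ∨ (R.Pres a b ∧ ¬ R.Pres a c ∧ R.Pres a d) ∨
      (R.Pres a b ∧ R.Pres a c ∧ ¬ R.Pres a d)) := by
  have two : ∀ {a b c d : K} {sa sb sc sd : S}, IsQuad N a b c d sa sb sc sd →
      (R.Pres a b ∨ R.Pres b c) := by
    intro a b c d sa sb sc sd h
    rcases R.quad_two h with h' | h'
    · exact Or.inl ⟨_, h'⟩
    · exact Or.inr ⟨_, h'⟩
  have q1 := two h
  have q2 := two h.swapbc
  have q3 := two h.swapab
  have q4 := R.quad_not_three h
  -- triple a b d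
  have r := h.swapcd
  have r1 := two r
  have r2 := two r.swapbc
  have r3 := two r.swapab
  have r4 := R.quad_not_three r
  -- triple a c d
  have t := h.swapbc.swapcd
  have t1 := two t
  have t2 := two t.swapbc
  have t3 := two t.swapab
  have t4 := R.quad_not_three t
  -- triple b c d
  have u := h.swapab.swapbc.swapcd
  have u1 := two u
  have u2 := two u.swapbc
  have u3 := two u.swapab
  have u4 := R.quad_not_three u
  have e1 := R.pres_comm a b
  have e2 := R.pres_comm a c
  have e3 := R.pres_comm a d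
  have e4 := R.pres_comm b c
  have e5 := R.pres_comm b d
  have e6 := R.pres_comm c d
  rw [← e1] at q3 r3
  rw [← e2] at t3
  rw [← e4] at q2
  rw [← e5] at r2
  rw [← e6] at t2 u2
  clear e1 e2 e3 e4 e5 e6 h r t u two
  generalize R.Pres a b = p1 at *
  generalize R.Pres a c = p2 at *
  generalize R.Pres a d = p3 at *
  generalize R.Pres b c = p4 at *
  generalize R.Pres b d = p5 at *
  generalize R.Pres c d = p6 at *
  by_cases h1 : p1 <;> by_cases h2 : p2 <;> by_cases h3 : p3 <;> simp_all

end Necessary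

end Pool.Agent.Lib.MP_aad05f_lc
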