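import Mathlib
import Pool.Agent.Lib.MP_aad05f_lc.Split

set_option autoImplicit false

namespace Pool.Agent.Lib.MP_aad05f_lc

/-- A 3-CNF formula: a list of clauses, each with exactly three literals; the literal `(x, b)`
is true under `α` when `α x = b`. -/
abbrev Formula : Type := List ((ℕ × Bool) × (ℕ × Bool) × (ℕ × Bool))

/-- satisfiability of a 3-CNF formula -/
def Formula.Satisfiable (φ : Formula) : Prop :=
  ∃ α : ℕ → Bool, ∀ c ∈ φ, α c.1.1 = c.1.2 ∨ α c.2.1.1 = c.2.1.2 ∨ α c.2.2.1 = c.2.2.2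

/-- An input of the recognition problem for `3split₃`: `K = {0, …, k-1}` is the complete side and
`S` is indexed by the positions of the list `nbhd`, whose entries are the neighbourhoods of the
vertices of `S`, three different vertices of `K` each. -/
structure Input where
  k : ℕ
  nbhd : List (ℕ × ℕ × ℕ)
  valid : ∀ t ∈ nbhd, t.1 ≠ t.2.1 ∧ t.1 ≠ t.2.2 ∧ t.2.1 ≠ t.2.2 ∧ t.1 < k ∧ t.2.1 < k ∧ t.2.2 < k

/-- the three neighbours of a vertex of `S` -/
def Input.N (I : Input) (s : Fin I.nbhd.length) : Set (Fin I.k) :=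
  {a | a.val = (I.nbhd.get s).1 ∨ a.val = (I.nbhd.get s).2.1 ∨ a.val = (I.nbhd.get s).2.2}

/-- the split graph given by an input -/
def Input.graph (I : Input) : SimpleGraph (Fin I.k ⊕ Fin I.nbhd.length) := splitGraph I.N

/-! ### The reduction -/

/-- vertex number `s` of the variable `x` -/
def vv (x : ℕ × ℕ) (s : ℕ) : ℕ := 58 * x.1 + (2 * x.2 + s)

/-- vertex number `j` of the gadget `(i, r)` -/
def cv (i r j : ℕ) : ℕ := 58 * i + (12 + 4 * r + j)

/-- the four triples of a 4-set -/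
def quad (a b c d : ℕ) : List (ℕ × ℕ × ℕ) := [(b, c, d), (a, c, d), (a, b, d), (a, b, c)]

/-- the triples of the gadget `(i, r)` on the variables `x, y, z` -/
def gadget (i r : ℕ) (x y z : ℕ × ℕ) : List (ℕ × ℕ × ℕ) :=
  quad (cv i r 0) (cv i r 1) (cv i r 2) (cv i r 3) ++
  (quad (vv x 0) (vv x 1) (cv i r 0) (cv i r 1) ++
  (quad (vv y 0) (vv y 1) (cv i r 0) (cv i r 2) ++
  quad (vv z 0) (vv z 1) (cv i r 0) (cv i r 3)))

/-- the variable of a literal -/
def litVar (l : ℕ × Bool) : ℕ × ℕ := (l.1, if l.2 then 0 else 1)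

/-- the variable of the negation of a literal -/
def litNeg (l : ℕ × Bool) : ℕ × ℕ := (l.1, if l.2 then 1 else 0)

/-- the one-in-three constraints of the `i`-th clause -/
def rcl (i : ℕ) (c : (ℕ × Bool) × (ℕ × Bool) × (ℕ × Bool)) :
    List (ℕ × (ℕ × ℕ) × (ℕ × ℕ) × (ℕ × ℕ)) :=
  [(0, litNeg c.1, (i, 2), (i, 3)), (1, litVar c.2.1, (i, 3), (i, 4)),
   (2, litNeg c.2.2, (i, 4), (i, 5)),
   (3, (c.1.1, 0), (c.1.1, 1), (0, 24)), (4, (c.2.1.1, 0), (c.2.1.1, 1), (0, 24)),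
   (5, (c.2.2.1, 0), (c.2.2.1, 1), (0, 24)),
   (6, (0, 25), (0, 26), (0, 27)), (7, (0, 25), (0, 26), (0, 24)), (8, (0, 24), (0, 27), (0, 28))]

/-- the triples produced from the `i`-th clause -/
def clauseTriples (i : ℕ) (c : (ℕ × Bool) × (ℕ × Bool) × (ℕ × Bool)) : List (ℕ × ℕ × ℕ) :=
  (rcl i c).flatMap fun q => gadget i q.1 q.2.1 q.2.2.1 q.2.2.2

/-- the triples of the reduction, the clauses being numbered from `i` on -/
def triplesFrom : ℕ → Formula → List (ℕ × ℕ × ℕ)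
  | _, [] => []
  | i, c :: φ => clauseTriples i c ++ triplesFrom (i + 1) φ

/-- size of a formula -/
def fsize : Formula → ℕ
  | [] => 0
  | c :: φ => (3 + c.1.1 + c.2.1.1 + c.2.2.1) + fsize φ

/-! ### One-in-three satisfiability of the intermediate system -/

/-- the constraint `(x, y, z)`: exactly one of `x, y, z` is true -/
def Exactly1 (p q r : Prop) : Prop := (p ∧ ¬ q ∧ ¬ r) ∨ (¬ p ∧ q ∧ ¬ r) ∨ (¬ p ∧ ¬ q ∧ r)

/-- all constraints coming from the clauses numbered from `i` on -/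
def RSat (α : ℕ × ℕ → Prop) (i : ℕ) (φ : Formula) : Prop :=
  ∀ (j : ℕ) (hj : j < φ.length), ∀ q ∈ rcl (i + j) (φ.get ⟨j, hj⟩), Exactly1 (α q.2.1) (α q.2.2.1) (α q.2.2.2)

theorem rsat_of_satisfiable (φ : Formula) (h : φ.Satisfiable) : ∃ α : ℕ × ℕ → Prop, RSat α 0 φ := by
  classical
  obtain ⟨β, hβ⟩ := h
  -- truth value of the three literals of clause `i`
  let d : (ℕ × Bool) × (ℕ × Bool) × (ℕ × Bool) := ((0, false), (0, false), (0, false))
  let L1 : ℕ → Prop := fun i => β (φ.getD i d).1.1 = (φ.getD i d).1.2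
  let L2 : ℕ → Prop := fun i => β (φ.getD i d).2.1.1 = (φ.getD i d).2.1.2
  let L3 : ℕ → Prop := fun i => β (φ.getD i d).2.2.1 = (φ.getD i d).2.2.2
  refine ⟨fun x => match x.2 with
    | 0 => β x.1 = true
    | 1 => β x.1 = false
    | 2 => L2 x.1 ∧ L1 x.1
    | 3 => ¬ L2 x.1 ∧ L1 x.1
    | 4 => ¬ L2 x.1 ∧ ¬ L1 x.1
    | 5 => (L2 x.1 ∨ L1 x.1) ∧ L3 x.1
    | 26 => True
    | 28 => True
    | _ => False, ?_⟩
  intro j hj q hq
  have hc := hβ _ (List.get_mem φ ⟨j, hj⟩)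
  have hget : φ.getD j d = φ.get ⟨j, hj⟩ := by simp [List.getD_eq_getElem?_getD, hj]
  have h1 : L1 j ↔ β (φ.get ⟨j, hj⟩).1.1 = (φ.get ⟨j, hj⟩).1.2 := by
    show β (φ.getD j d).1.1 = (φ.getD j d).1.2 ↔ _
    rw [hget]
  have h2 : L2 j ↔ β (φ.get ⟨j, hj⟩).2.1.1 = (φ.get ⟨j, hj⟩).2.1.2 := by
    show β (φ.getD j d).2.1.1 = (φ.getD j d).2.1.2 ↔ _
    rw [hget]
  have h3 : L3 j ↔ β (φ.get ⟨j, hj⟩).2.2.1 = (φ.get ⟨j, hj⟩).2.2.2 := by
    show β (φ.getD j d).2.2.1 = (φ.getD j d).2.2.2 ↔ _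
    rw [hget]
  clear_value L1 L2 L3
  generalize hcc : φ.get ⟨j, hj⟩ = c at *
  obtain ⟨⟨x1, b1⟩, ⟨x2, b2⟩, ⟨x3, b3⟩⟩ := c
  simp only [Nat.zero_add] at hq
  simp only at hc h1 h2 h3
  rw [← h1, ← h2, ← h3] at hc
  simp only [rcl, litNeg, litVar, List.mem_cons, List.not_mem_nil, or_false] at hq
  rcases hq with rfl | rfl | rfl | rfl | rfl | rfl | rfl | rfl | rfl
  · cases b1 <;> simp only [Exactly1, Bool.false_eq_true, if_false, if_true] <;>
      (cases hb : β x1 <;> simp [hb] at h1 <;> simp [h1] <;> tauto)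
  · cases b2 <;> simp only [Exactly1, Bool.false_eq_true, if_false, if_true] <;>
      (cases hb : β x2 <;> simp [hb] at h2 <;> simp [h2] <;> tauto)
  · cases b3 <;> simp only [Exactly1, Bool.false_eq_true, if_false, if_true] <;>
      (cases hb : β x3 <;> simp [hb] at h3 <;> simp [h3] <;> tauto)
  · cases hb : β x1 <;> simp [Exactly1, hb]
  · cases hb : β x2 <;> simp [Exactly1, hb]
  · cases hb : β x3 <;> simp [Exactly1, hb]
  · simp [Exactly1]
  · simp [Exactly1]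
  · simp [Exactly1]

theorem satisfiable_of_rsat (φ : Formula) (α : ℕ × ℕ → Prop) (h : RSat α 0 φ) : φ.Satisfiable := by
  classical
  refine ⟨fun n => decide (α (n, 0)), ?_⟩
  intro c hc
  obtain ⟨⟨j, hj⟩, hcj⟩ := List.get_of_mem hc
  have hj' := h j hj
  rw [hcj, Nat.zero_add] at hj'
  obtain ⟨⟨x1, b1⟩, ⟨x2, b2⟩, ⟨x3, b3⟩⟩ := c
  have r0 := hj' _ (by simp only [rcl]; exact List.mem_cons_self)
  have r1 := hj' (1, litVar (x2, b2), (j, 3), (j, 4)) (by simp [rcl])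
  have r2 := hj' (2, litNeg (x3, b3), (j, 4), (j, 5)) (by simp [rcl])
  have r3 := hj' (3, (x1, 0), (x1, 1), (0, 24)) (by simp [rcl])
  have r4 := hj' (4, (x2, 0), (x2, 1), (0, 24)) (by simp [rcl])
  have r5 := hj' (5, (x3, 0), (x3, 1), (0, 24)) (by simp [rcl])
  have r6 := hj' (6, (0, 25), (0, 26), (0, 27)) (by simp [rcl])
  have r7 := hj' (7, (0, 25), (0, 26), (0, 24)) (by simp [rcl])
  have r8 := hj' (8, (0, 24), (0, 27), (0, 28)) (by simp [rcl])
  have hf : ¬ α (0, 24) := by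
    simp only [Exactly1] at r6 r7 r8
    generalize α (0, 24) = p at *
    generalize α (0, 25) = p1 at *
    generalize α (0, 26) = p2 at *
    generalize α (0, 27) = p3 at *
    generalize α (0, 28) = p4 at *
    clear r0 r1 r2 r3 r4 r5 hj' hcj hc h
    tauto
  clear r6 r7 r8 hj' hcj hc h
  -- truth of literals
  have key : ∀ (x : ℕ) (b : Bool), Exactly1 (α (x, 0)) (α (x, 1)) (α (0, 24)) →
      (α (litVar (x, b)) ↔ decide (α (x, 0)) = b) ∧ (α (litNeg (x, b)) ↔ ¬ decide (α (x, 0)) = b) := by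
    intro x b hx
    simp only [Exactly1] at hx
    cases b <;> by_cases h0 : α (x, 0) <;> by_cases h1 : α (x, 1) <;>
      simp_all [litVar, litNeg]
  have k1 := (key x1 b1 r3).2
  have k2 := (key x2 b2 r4).1
  have k3 := (key x3 b3 r5).2
  simp only [Exactly1] at r0 r1 r2
  rw [k1] at r0
  rw [k2] at r1
  rw [k3] at r2
  show decide (α (x1, 0)) = b1 ∨ decide (α (x2, 0)) = b2 ∨ decide (α (x3, 0)) = b3
  clear k1 k2 k3 key r3 r4 r5 hf
  generalize (decide (α (x1, 0)) = b1) = p1 at *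
  generalize (decide (α (x2, 0)) = b2) = p2 at *
  generalize (decide (α (x3, 0)) = b3) = p3 at *
  generalize α (j, 2) = q1 at *
  generalize α (j, 3) = q2 at *
  generalize α (j, 4) = q3 at *
  generalize α (j, 5) = q4 at *
  tauto

end Pool.Agent.Lib.MP_aad05f_lc
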