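import Mathlib
import Pool.Agent.Lib.MP_aad05f_lc.Reduction

set_option autoImplicit false

namespace Pool.Agent.Lib.MP_aad05f_lc

/-! ### Numerical facts -/

/-- admissible variables of the intermediate system -/
def VarOK (x : ℕ × ℕ) : Prop := x.2 ≤ 5 ∨ (24 ≤ x.2 ∧ x.2 ≤ 28)

theorem rcl_facts (i : ℕ) (c : (ℕ × Bool) × (ℕ × Bool) × (ℕ × Bool))
    (q : ℕ × (ℕ × ℕ) × (ℕ × ℕ) × (ℕ × ℕ)) (hq : q ∈ rcl i c) :
    q.1 ≤ 8 ∧ (VarOK q.2.1 ∧ VarOK q.2.2.1 ∧ VarOK q.2.2.2) ∧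
    (q.2.1 ≠ q.2.2.1 ∧ q.2.1 ≠ q.2.2.2 ∧ q.2.2.1 ≠ q.2.2.2) ∧
    (∀ m, i ≤ m → c.1.1 ≤ m → c.2.1.1 ≤ m → c.2.2.1 ≤ m →
      q.2.1.1 ≤ m ∧ q.2.2.1.1 ≤ m ∧ q.2.2.2.1 ≤ m) := by
  obtain ⟨⟨x1, b1⟩, ⟨x2, b2⟩, ⟨x3, b3⟩⟩ := c
  simp only [rcl, litNeg, litVar, List.mem_cons, List.not_mem_nil, or_false] at hq
  rcases hq with rfl | rfl | rfl | rfl | rfl | rfl | rfl | rfl | rfl
  · cases b1 <;> simp [VarOK] <;> omega
  · cases b2 <;> simp [VarOK] <;> omega
  · cases b3 <;> simp [VarOK] <;> omega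
  all_goals simp [VarOK]
  all_goals omega

theorem rcl_unique (i : ℕ) (c : (ℕ × Bool) × (ℕ × Bool) × (ℕ × Bool))
    (q q' : ℕ × (ℕ × ℕ) × (ℕ × ℕ) × (ℕ × ℕ)) (hq : q ∈ rcl i c) (hq' : q' ∈ rcl i c)
    (h : q.1 = q'.1) : q = q' := by
  simp only [rcl, List.mem_cons, List.not_mem_nil, or_false] at hq hq'
  rcases hq with rfl | rfl | rfl | rfl | rfl | rfl | rfl | rfl | rfl <;>
    rcases hq' with rfl | rfl | rfl | rfl | rfl | rfl | rfl | rfl | rfl <;> simp_all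

theorem mem_triplesFrom (φ : Formula) (i : ℕ) (t : ℕ × ℕ × ℕ) :
    t ∈ triplesFrom i φ ↔ ∃ (j : ℕ) (hj : j < φ.length), ∃ q ∈ rcl (i + j) (φ.get ⟨j, hj⟩),
      t ∈ gadget (i + j) q.1 q.2.1 q.2.2.1 q.2.2.2 := by
  induction φ generalizing i with
  | nil => simp [triplesFrom]
  | cons c φ ih =>
    rw [triplesFrom, List.mem_append, ih, clauseTriples, List.mem_flatMap]
    constructor
    · rintro (⟨q, hq, ht⟩ | ⟨j, hj, q, hq, ht⟩)
      · exact ⟨0, by simp, q, by simpa using hq, by simpa using ht⟩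
      · refine ⟨j + 1, by simpa using hj, q, ?_, ?_⟩
        · simpa [Nat.add_assoc, Nat.add_comm 1 j] using hq
        · simpa [Nat.add_assoc, Nat.add_comm 1 j] using ht
    · rintro ⟨j, hj, q, hq, ht⟩
      rcases j with _ | j
      · exact Or.inl ⟨q, by simpa using hq, by simpa using ht⟩
      · refine Or.inr ⟨j, by simpa using hj, q, ?_, ?_⟩
        · simpa [Nat.add_assoc, Nat.add_comm 1 j] using hq
        · simpa [Nat.add_assoc, Nat.add_comm 1 j] using ht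

theorem fsize_bounds (φ : Formula) : φ.length ≤ fsize φ ∧ ∀ c ∈ φ, c.1.1 ≤ fsize φ ∧
    c.2.1.1 ≤ fsize φ ∧ c.2.2.1 ≤ fsize φ := by
  induction φ with
  | nil => simp [fsize]
  | cons c φ ih =>
    obtain ⟨h1, h2⟩ := ih
    refine ⟨by simp only [List.length_cons, fsize]; omega, ?_⟩
    intro d hd
    rcases List.mem_cons.1 hd with rfl | hd
    · simp only [fsize]; omega
    · have := h2 d hd
      simp only [fsize]
      omega

theorem quad_valid {a b c d k : ℕ} (hab : a ≠ b) (hac : a ≠ c) (had : a ≠ d) (hbc : b ≠ c)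
    (hbd : b ≠ d) (hcd : c ≠ d) (ha : a < k) (hb : b < k) (hc : c < k) (hd : d < k) :
    ∀ t ∈ quad a b c d, t.1 ≠ t.2.1 ∧ t.1 ≠ t.2.2 ∧ t.2.1 ≠ t.2.2 ∧ t.1 < k ∧ t.2.1 < k ∧ t.2.2 < k := by
  intro t ht
  simp only [quad, List.mem_cons, List.not_mem_nil, or_false] at ht
  rcases ht with rfl | rfl | rfl | rfl <;> simp_all

theorem code_eq {n m a b : ℕ} (ha : a < 58) (hb : b < 58) (h : 58 * n + a = 58 * m + b) :
    n = m ∧ a = b := by
  rcases lt_trichotomy n m with h1 | h1 | h1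
  · omega
  · omega
  · omega

theorem vv_ne_cv {x : ℕ × ℕ} (hx : VarOK x) {s : ℕ} (hs : s ≤ 1) {i r j : ℕ} (hr : r ≤ 8)
    (hj : j ≤ 3) : vv x s ≠ cv i r j := by
  intro h
  simp only [vv, cv] at h
  simp only [VarOK] at hx
  obtain ⟨-, h2⟩ := code_eq (by omega) (by omega) h
  omega

theorem triples_valid (φ : Formula) : ∀ t ∈ triplesFrom 0 φ,
    t.1 ≠ t.2.1 ∧ t.1 ≠ t.2.2 ∧ t.2.1 ≠ t.2.2 ∧ t.1 < 58 * (fsize φ + 1) ∧
    t.2.1 < 58 * (fsize φ + 1) ∧ t.2.2 < 58 * (fsize φ + 1) := by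
  intro t ht
  rw [mem_triplesFrom] at ht
  obtain ⟨j, hj, q, hq, ht⟩ := ht
  rw [Nat.zero_add] at hq ht
  obtain ⟨h1, ⟨h2, h3, h4⟩, ⟨h5, h6, h7⟩, h8⟩ := rcl_facts _ _ _ hq
  obtain ⟨f1, f2⟩ := fsize_bounds φ
  have f3 := f2 _ (List.get_mem φ ⟨j, hj⟩)
  obtain ⟨g1, g2, g3⟩ := h8 (fsize φ) (by omega) f3.1 f3.2.1 f3.2.2
  obtain ⟨r, ⟨x1, x2⟩, ⟨y1, y2⟩, ⟨z1, z2⟩⟩ := q
  simp only at h1 h2 h3 h4 g1 g2 g3
  simp only [gadget, List.mem_append] at ht
  have hjl : j < fsize φ := by omega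
  have vlt : ∀ (x : ℕ × ℕ), VarOK x → x.1 ≤ fsize φ → ∀ s, s ≤ 1 → vv x s < 58 * (fsize φ + 1) := by
    intro x hx hle s hs
    simp only [VarOK] at hx
    simp only [vv]
    omega
  have clt : ∀ i, i ≤ 3 → cv j r i < 58 * (fsize φ + 1) := by
    intro i hi
    simp only [cv]
    omega
  have wire : ∀ (x : ℕ × ℕ), VarOK x → x.1 ≤ fsize φ → ∀ i, 1 ≤ i → i ≤ 3 →
      ∀ t ∈ quad (vv x 0) (vv x 1) (cv j r 0) (cv j r i), t.1 ≠ t.2.1 ∧ t.1 ≠ t.2.2 ∧
        t.2.1 ≠ t.2.2 ∧ t.1 < 58 * (fsize φ + 1) ∧ t.2.1 < 58 * (fsize φ + 1) ∧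
        t.2.2 < 58 * (fsize φ + 1) := by
    intro x hx hle i hi1 hi3
    refine quad_valid ?_ (vv_ne_cv hx (by omega) h1 (by omega)) (vv_ne_cv hx (by omega) h1 hi3)
      (vv_ne_cv hx (by omega) h1 (by omega)) (vv_ne_cv hx (by omega) h1 hi3) ?_
      (vlt x hx hle 0 (by omega)) (vlt x hx hle 1 (by omega)) (clt 0 (by omega)) (clt i hi3)
    · simp only [vv]; omega
    · simp only [cv]; omega
  rcases ht with ht | ht | ht | ht
  · refine quad_valid ?_ ?_ ?_ ?_ ?_ ?_ ?_ ?_ ?_ ?_ t ht <;> simp only [cv] <;> omega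
  · exact wire _ h2 g1 1 (by omega) (by omega) t ht
  · exact wire _ h3 g2 2 (by omega) (by omega) t ht
  · exact wire _ h4 g3 3 (by omega) (by omega) t ht

/-- The reduction from 3SAT to the recognition of clique graphs in `3split₃`. -/
def reduce (φ : Formula) : Input where
  k := 58 * (fsize φ + 1)
  nbhd := triplesFrom 0 φ
  valid := triples_valid φ

/-! ### From a clique graph to a satisfying assignment -/

theorem exists_isQuad (I : Input) {a b c d : ℕ} (h : ∀ t ∈ quad a b c d, t ∈ I.nbhd) :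
    ∃ (ha : a < I.k) (hb : b < I.k) (hc : c < I.k) (hd : d < I.k) (sa sb sc sd : Fin I.nbhd.length),
      IsQuad I.N ⟨a, ha⟩ ⟨b, hb⟩ ⟨c, hc⟩ ⟨d, hd⟩ sa sb sc sd := by
  have m1 := h (b, c, d) (by simp [quad])
  have m2 := h (a, c, d) (by simp [quad])
  have m3 := h (a, b, d) (by simp [quad])
  have m4 := h (a, b, c) (by simp [quad])
  have v1 := I.valid _ m1
  have v2 := I.valid _ m2
  have v3 := I.valid _ m3
  have v4 := I.valid _ m4
  simp only at v1 v2 v3 v4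
  obtain ⟨sa, hsa⟩ := List.get_of_mem m1
  obtain ⟨sb, hsb⟩ := List.get_of_mem m2
  obtain ⟨sc, hsc⟩ := List.get_of_mem m3
  obtain ⟨sd, hsd⟩ := List.get_of_mem m4
  refine ⟨v4.2.2.2.1, v4.2.2.2.2.1, v4.2.2.2.2.2, v1.2.2.2.2.2, sa, sb, sc, sd, ?_⟩
  constructor
  · simpa using v4.1
  · simpa using v4.2.1
  · simpa using v3.2.1
  · simpa using v4.2.2.1
  · simpa using v1.2.1
  · simpa using v1.2.2.1
  · ext u; simp only [Input.N, hsa, Set.mem_setOf_eq, Set.mem_insert_iff, Set.mem_singleton_iff, Fin.ext_iff]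
  · ext u; simp only [Input.N, hsb, Set.mem_setOf_eq, Set.mem_insert_iff, Set.mem_singleton_iff, Fin.ext_iff]
  · ext u; simp only [Input.N, hsc, Set.mem_setOf_eq, Set.mem_insert_iff, Set.mem_singleton_iff, Fin.ext_iff]
  · ext u; simp only [Input.N, hsd, Set.mem_setOf_eq, Set.mem_insert_iff, Set.mem_singleton_iff, Fin.ext_iff]

theorem satisfiable_of_isCliqueGraph (φ : Formula) (h : IsCliqueGraph (reduce φ).graph) :
    φ.Satisfiable := by
  obtain ⟨W, ⟨R⟩⟩ := exists_rsFamily_of_isCliqueGraph h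
  set I := reduce φ with hI
  change RSFamily (splitGraph I.N) W at R
  let PresN : ℕ → ℕ → Prop := fun p q => ∃ (hp : p < I.k) (hq : q < I.k), R.Pres ⟨p, hp⟩ ⟨q, hq⟩
  have matching : ∀ a b c d : ℕ, (∀ t ∈ quad a b c d, t ∈ I.nbhd) →
      (PresN a b ↔ PresN c d) ∧
      ((¬ PresN a b ∧ PresN a c ∧ PresN a d) ∨ (PresN a b ∧ ¬ PresN a c ∧ PresN a d) ∨
      (PresN a b ∧ PresN a c ∧ ¬ PresN a d)) := by
    intro a b c d ht
    obtain ⟨ha, hb, hc, hd, sa, sb, sc, sd, hq⟩ := exists_isQuad I ht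
    have := R.quad_matching hq
    have e1 : PresN a b ↔ R.Pres ⟨a, ha⟩ ⟨b, hb⟩ := ⟨fun ⟨_, _, h⟩ => h, fun h => ⟨_, _, h⟩⟩
    have e2 : PresN a c ↔ R.Pres ⟨a, ha⟩ ⟨c, hc⟩ := ⟨fun ⟨_, _, h⟩ => h, fun h => ⟨_, _, h⟩⟩
    have e3 : PresN a d ↔ R.Pres ⟨a, ha⟩ ⟨d, hd⟩ := ⟨fun ⟨_, _, h⟩ => h, fun h => ⟨_, _, h⟩⟩
    have e4 : PresN c d ↔ R.Pres ⟨c, hc⟩ ⟨d, hd⟩ := ⟨fun ⟨_, _, h⟩ => h, fun h => ⟨_, _, h⟩⟩
    rw [e1, e2, e3, e4]
    exact this
  apply satisfiable_of_rsat φ (fun x => ¬ PresN (vv x 0) (vv x 1))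
  intro j hj q hq
  obtain ⟨r, x, y, z⟩ := q
  have hmem : ∀ t ∈ gadget (0 + j) r x y z, t ∈ I.nbhd := by
    intro t ht
    show t ∈ triplesFrom 0 φ
    rw [mem_triplesFrom]
    exact ⟨j, hj, (r, x, y, z), hq, ht⟩
  have q0 := matching _ _ _ _ (fun t ht => hmem t (List.mem_append_left _ ht))
  have q1 := matching _ _ _ _ (fun t ht => hmem t
    (List.mem_append_right _ (List.mem_append_left _ ht)))
  have q2 := matching _ _ _ _ (fun t ht => hmem t
    (List.mem_append_right _ (List.mem_append_right _ (List.mem_append_left _ ht))))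
  have q3 := matching _ _ _ _ (fun t ht => hmem t
    (List.mem_append_right _ (List.mem_append_right _ (List.mem_append_right _ ht))))
  simp only [Exactly1]
  rw [q1.1, q2.1, q3.1]
  have q0' := q0.2
  clear q0 q1 q2 q3 hmem matching
  generalize PresN (cv (0 + j) r 0) (cv (0 + j) r 1) = p1 at *
  generalize PresN (cv (0 + j) r 0) (cv (0 + j) r 2) = p2 at *
  generalize PresN (cv (0 + j) r 0) (cv (0 + j) r 3) = p3 at *
  tauto

/-! ### From a satisfying assignment to a clique graph -/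

theorem quad_path (P : ℕ → ℕ → Prop) (hs : ∀ a b, P a b → P b a) {a b c d : ℕ}
    (h : (P a c ∧ P a d ∧ P b c ∧ P b d) ∨ (P a b ∧ P a d ∧ P b c ∧ P c d) ∨
      (P a b ∧ P a c ∧ P b d ∧ P c d)) :
    ∀ t ∈ quad a b c d, ∃ x y z : ℕ, (∀ u : ℕ, (u = t.1 ∨ u = t.2.1 ∨ u = t.2.2) ↔
      (u = x ∨ u = y ∨ u = z)) ∧ P x y ∧ P y z := by
  intro t ht
  simp only [quad, List.mem_cons, List.not_mem_nil, or_false] at ht
  rcases h with ⟨h1, h2, h3, h4⟩ | ⟨h1, h2, h3, h4⟩ | ⟨h1, h2, h3, h4⟩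
  · rcases ht with rfl | rfl | rfl | rfl
    · exact ⟨c, b, d, by intro u; simp only; tauto, hs _ _ h3, h4⟩
    · exact ⟨c, a, d, by intro u; simp only; tauto, hs _ _ h1, h2⟩
    · exact ⟨a, d, b, by intro u; simp only; tauto, h2, hs _ _ h4⟩
    · exact ⟨a, c, b, by intro u; simp only; tauto, h1, hs _ _ h3⟩
  · rcases ht with rfl | rfl | rfl | rfl
    · exact ⟨b, c, d, by intro u; simp only, h3, h4⟩
    · exact ⟨a, d, c, by intro u; simp only; tauto, h2, hs _ _ h4⟩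
    · exact ⟨b, a, d, by intro u; simp only; tauto, hs _ _ h1, h2⟩
    · exact ⟨a, b, c, by intro u; simp only, h1, h3⟩
  · rcases ht with rfl | rfl | rfl | rfl
    · exact ⟨b, d, c, by intro u; simp only; tauto, h3, hs _ _ h4⟩
    · exact ⟨a, c, d, by intro u; simp only, h2, h4⟩
    · exact ⟨a, b, d, by intro u; simp only, h1, h3⟩
    · exact ⟨b, a, c, by intro u; simp only; tauto, hs _ _ h1, h2⟩

/-- the class (position of the variable) of a pair of clause vertices -/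
def cls (i j : Fin 4) : Fin 3 :=
  if i.val + j.val = 1 ∨ i.val + j.val = 5 then 0
  else if (i.val + j.val = 2 ∨ i.val + j.val = 4) then 1
  else 2

theorem cls_comm : ∀ i j : Fin 4, cls j i = cls i j := by decide

theorem cls_eq : ∀ (i j : Fin 4) (t : Fin 3), i ≠ j → (i = 0 ∨ i = t.succ) →
    (j = 0 ∨ j = t.succ) → cls i j = t := by decide

theorem cls_all : ∀ (i j l : Fin 4), i ≠ j → j ≠ l → i ≠ l → ∀ t : Fin 3,
    t = cls i j ∨ t = cls j l ∨ t = cls i l := by decide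

theorem cls_zero_succ : ∀ t : Fin 3, cls 0 t.succ = t := by decide

/-- numerical code of a vertex -/
def codeOf : ((ℕ × ℕ) × Bool) ⊕ ((ℕ × ℕ) × Fin 4) → ℕ
  | .inl (x, s) => vv x (if s then 1 else 0)
  | .inr (c, j) => cv c.1 c.2 j.val

/-- admissible vertices -/
def codeOK : ((ℕ × ℕ) × Bool) ⊕ ((ℕ × ℕ) × Fin 4) → Prop
  | .inl (x, _) => VarOK x
  | .inr (c, _) => c.2 ≤ 8

theorem codeOf_inj (a b : ((ℕ × ℕ) × Bool) ⊕ ((ℕ × ℕ) × Fin 4)) (ha : codeOK a) (hb : codeOK b)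
    (h : codeOf a = codeOf b) : a = b := by
  rcases a with ⟨⟨x1, x2⟩, s⟩ | ⟨⟨i, r⟩, j⟩ <;> rcases b with ⟨⟨y1, y2⟩, t⟩ | ⟨⟨i', r'⟩, j'⟩
  · simp only [codeOf, vv] at h
    simp only [codeOK, VarOK] at ha hb
    have hs : (if s then 1 else 0 : ℕ) ≤ 1 := by split <;> omega
    have ht : (if t then 1 else 0 : ℕ) ≤ 1 := by split <;> omega
    obtain ⟨e1, e2'⟩ := code_eq (by omega) (by omega) h
    have e2 : x2 = y2 := by omega
    have e3 : (if s then 1 else 0 : ℕ) = (if t then 1 else 0 : ℕ) := by omega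
    subst e1 e2
    have e4 : s = t := by
      cases s <;> cases t <;> simp_all
    rw [e4]
  · exfalso
    have hs : (if s then 1 else 0 : ℕ) ≤ 1 := by split <;> omega
    have := j'.2
    exact vv_ne_cv ha hs hb (by omega) h
  · exfalso
    have hs : (if t then 1 else 0 : ℕ) ≤ 1 := by split <;> omega
    have := j.2
    exact vv_ne_cv hb hs ha (by omega) h.symm
  · simp only [codeOf, cv] at h
    simp only [codeOK] at ha hb
    have hj := j.2
    have hj' := j'.2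
    obtain ⟨e1, e2'⟩ := code_eq (by omega) (by omega) h
    have e2 : r = r' := by omega
    have e3 : j = j' := Fin.ext (by omega)
    subst e1 e2 e3
    rfl

section Abstract

variable {X C : Type} (v : C → Fin 3 → X) (α : X → Prop)

/-- the graph of present pairs -/
def P0 : (X × Bool) ⊕ (C × Fin 4) → (X × Bool) ⊕ (C × Fin 4) → Prop
  | .inl (x, s), .inl (y, t) => x = y ∧ s ≠ t ∧ ¬ α x
  | .inl (x, s), .inr (c, j) => ∃ t : Fin 3, v c t = x ∧ (j = 0 ∨ j = t.succ) ∧ (α x ∨ (s = false ↔ j = 0))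
  | .inr (c, j), .inl (x, s) => ∃ t : Fin 3, v c t = x ∧ (j = 0 ∨ j = t.succ) ∧ (α x ∨ (s = false ↔ j = 0))
  | .inr (c, i), .inr (d, j) => c = d ∧ i ≠ j ∧ ¬ α (v c (cls i j))

theorem P0_symm (a b : (X × Bool) ⊕ (C × Fin 4)) (h : P0 v α a b) : P0 v α b a := by
  rcases a with ⟨x, s⟩ | ⟨c, i⟩ <;> rcases b with ⟨y, t⟩ | ⟨d, j⟩
  · obtain ⟨h1, h2, h3⟩ := h
    exact ⟨h1.symm, h2.symm, by rw [← h1]; exact h3⟩
  · exact h
  · exact h
  · obtain ⟨h1, h2, h3⟩ := h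
    refine ⟨h1.symm, h2.symm, ?_⟩
    rw [← h1]
    rw [cls_comm]
    exact h3

variable (hv : ∀ c, Function.Injective (v c))
variable (hα : ∀ c, Exactly1 (α (v c 0)) (α (v c 1)) (α (v c 2)))

include hv in
theorem P0_varclause (x : X) (c : C) (i j : Fin 4) (hij : i ≠ j) (s : Bool)
    (h1 : P0 v α (.inl (x, s)) (.inr (c, i))) (h2 : P0 v α (.inl (x, s)) (.inr (c, j)))
    (h3 : P0 v α (.inr (c, i)) (.inr (c, j))) : False := by
  obtain ⟨t, ht1, ht2, ht3⟩ := h1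
  obtain ⟨t', ht1', ht2', ht3'⟩ := h2
  obtain ⟨-, -, h3⟩ := h3
  have e : t = t' := hv c (ht1.trans ht1'.symm)
  subst e
  have hcls : cls i j = t := cls_eq i j t hij ht2 ht2'
  rw [hcls, ht1] at h3
  rcases ht3 with h | h
  · exact h3 h
  · rcases ht3' with h' | h'
    · exact h3 h'
    · rcases ht2 with e1 | e1 <;> rcases ht2' with e2 | e2
      · exact hij (e1.trans e2.symm)
      · subst e1 e2
        have : s = false := h.2 rfl
        exact absurd (h'.1 this) (Fin.succ_ne_zero t)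
      · subst e1 e2
        have : s = false := h'.2 rfl
        exact absurd (h.1 this) (Fin.succ_ne_zero t)
      · exact hij (e1.trans e2.symm)

theorem P0_varvar (x : X) (c : C) (i : Fin 4) (s t : Bool) (hst : s ≠ t)
    (h1 : P0 v α (.inl (x, s)) (.inr (c, i))) (h2 : P0 v α (.inl (x, t)) (.inr (c, i)))
    (h3 : ¬ α x) : False := by
  obtain ⟨_, -, -, h⟩ := h1
  obtain ⟨_, -, -, h'⟩ := h2
  rcases h with h | h
  · exact h3 h
  · rcases h' with h' | h'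
    · exact h3 h'
    · cases s <;> cases t <;> simp_all

include hα in
theorem P0_clause3 (c : C) (i j l : Fin 4) (hij : i ≠ j) (hjl : j ≠ l) (hil : i ≠ l)
    (h1 : ¬ α (v c (cls i j))) (h2 : ¬ α (v c (cls j l))) (h3 : ¬ α (v c (cls i l))) : False := by
  have hall : ∀ t : Fin 3, t = cls i j ∨ t = cls j l ∨ t = cls i l := cls_all i j l hij hjl hil
  have hn : ∀ t : Fin 3, ¬ α (v c t) := by
    intro t
    rcases hall t with h | h | h
    · rw [h]; exact h1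
    · rw [h]; exact h2
    · rw [h]; exact h3
  have := hα c
  simp only [Exactly1, hn 0, hn 1, hn 2, false_and, and_false, or_self] at this

include hv hα in
theorem P0_free (a b c : (X × Bool) ⊕ (C × Fin 4)) (h1 : P0 v α a b) (h2 : P0 v α b c)
    (h3 : P0 v α a c) : False := by
  rcases a with ⟨x, s⟩ | ⟨c1, i⟩ <;> rcases b with ⟨y, t⟩ | ⟨c2, j⟩ <;> rcases c with ⟨z, u⟩ | ⟨c3, l⟩
  · have e1 := h1.2.1
    have e2 := h2.2.1
    have e3 := h3.2.1
    cases s <;> cases t <;> cases u <;> simp_all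
  · obtain ⟨rfl, hst, hx⟩ := h1
    exact P0_varvar v α x c3 l s t hst h3 h2 hx
  · obtain ⟨rfl, hst, hx⟩ := h3
    exact P0_varvar v α x c2 j s u hst h1 (P0_symm v α _ _ h2) hx
  · have e : c2 = c3 := h2.1
    subst e
    exact P0_varclause v α hv x c2 j l h2.2.1 s h1 h3 h2
  · obtain ⟨rfl, hst, hx⟩ := h2
    exact P0_varvar v α y c1 i t u hst (P0_symm v α _ _ h1) (P0_symm v α _ _ h3) hx
  · have e : c1 = c3 := h3.1
    subst e
    exact P0_varclause v α hv y c1 i l h3.2.1 t (P0_symm v α _ _ h1) h2 h3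
  · have e : c1 = c2 := h1.1
    subst e
    exact P0_varclause v α hv z c1 i j h1.2.1 u (P0_symm v α _ _ h3) (P0_symm v α _ _ h2) h1
  · obtain ⟨rfl, e1, f1⟩ := h1
    obtain ⟨rfl, e2, f2⟩ := h2
    obtain ⟨-, e3, f3⟩ := h3
    exact P0_clause3 v α hα c1 i j l e1 e2 e3 f1 f2 f3

end Abstract

theorem isCliqueGraph_of_satisfiable (φ : Formula) (h : φ.Satisfiable) :
    IsCliqueGraph (reduce φ).graph := by
  classical
  obtain ⟨α, hα⟩ := rsat_of_satisfiable φ h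
  set I := reduce φ with hI
  -- constraints
  let Con : ℕ × ℕ → ((ℕ × ℕ) × (ℕ × ℕ) × (ℕ × ℕ)) → Prop := fun c q =>
    ∃ hj : c.1 < φ.length, (c.2, q) ∈ rcl c.1 (φ.get ⟨c.1, hj⟩)
  have Con_unique : ∀ c q q', Con c q → Con c q' → q = q' := by
    rintro c q q' ⟨hj, h1⟩ ⟨hj', h2⟩
    have := rcl_unique _ _ _ _ h1 h2 rfl
    simpa using this
  have Con_sat : ∀ c q, Con c q → Exactly1 (α q.1) (α q.2.1) (α q.2.2) := by
    rintro c q ⟨hj, h1⟩
    have := hα c.1 hj (c.2, q) (by rw [Nat.zero_add]; exact h1)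
    exact this
  let C := {c : ℕ × ℕ // ∃ q, Con c q}
  let X := {x : ℕ × ℕ // VarOK x}
  choose qf hqf using (fun c : C => c.2)
  have hfacts : ∀ c : C, c.1.2 ≤ 8 ∧ (VarOK (qf c).1 ∧ VarOK (qf c).2.1 ∧ VarOK (qf c).2.2) ∧
      ((qf c).1 ≠ (qf c).2.1 ∧ (qf c).1 ≠ (qf c).2.2 ∧ (qf c).2.1 ≠ (qf c).2.2) := by
    intro c
    obtain ⟨hj, h1⟩ := hqf c
    have := rcl_facts _ _ _ h1
    exact ⟨this.1, this.2.1, this.2.2.1⟩
  let v : C → Fin 3 → X := fun c t => match t with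
    | 0 => ⟨(qf c).1, (hfacts c).2.1.1⟩
    | 1 => ⟨(qf c).2.1, (hfacts c).2.1.2.1⟩
    | 2 => ⟨(qf c).2.2, (hfacts c).2.1.2.2⟩
  have hv : ∀ c, Function.Injective (v c) := by
    intro c s t hst
    obtain ⟨d1, d2, d3⟩ := (hfacts c).2.2
    have hst' : (v c s).1 = (v c t).1 := congrArg Subtype.val hst
    fin_cases s <;> fin_cases t <;> first | rfl | (exfalso; revert hst'; simp only [v]; first | exact d1 | exact d2 | exact d3 | exact d1.symm | exact d2.symm | exact d3.symm)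
  let β : X → Prop := fun x => α x.1
  have hβ : ∀ c, Exactly1 (β (v c 0)) (β (v c 1)) (β (v c 2)) := fun c => Con_sat _ _ (hqf c)
  let raw : (X × Bool) ⊕ (C × Fin 4) → ((ℕ × ℕ) × Bool) ⊕ ((ℕ × ℕ) × Fin 4) :=
    Sum.map (Prod.map Subtype.val id) (Prod.map Subtype.val id)
  have raw_inj : Function.Injective raw :=
    Function.Injective.sumMap (Function.Injective.prodMap Subtype.val_injective Function.injective_id)
      (Function.Injective.prodMap Subtype.val_injective Function.injective_id)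
  have raw_ok : ∀ u, codeOK (raw u) := by
    rintro (⟨x, s⟩ | ⟨c, j⟩)
    · exact x.2
    · exact (hfacts c).1
  let code : (X × Bool) ⊕ (C × Fin 4) → ℕ := fun u => codeOf (raw u)
  have code_inj : Function.Injective code := fun a b h =>
    raw_inj (codeOf_inj _ _ (raw_ok a) (raw_ok b) h)
  let P : ℕ → ℕ → Prop := fun p q => ∃ a b, code a = p ∧ code b = q ∧ P0 v β a b
  have Psymm : ∀ p q, P p q → P q p := by
    rintro p q ⟨a, b, ha, hb, hab⟩
    exact ⟨b, a, hb, ha, P0_symm v β a b hab⟩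
  have Pfree : ∀ p q r, P p q → P q r → P p r → False := by
    rintro p q r ⟨a, b, ha, hb, hab⟩ ⟨b', c, hb', hc, hbc⟩ ⟨a', c', ha', hc', hac⟩
    have e1 : b = b' := code_inj (hb.trans hb'.symm)
    have e2 : a = a' := code_inj (ha.trans ha'.symm)
    have e3 : c = c' := code_inj (hc.trans hc'.symm)
    subst e1 e2 e3
    exact P0_free v β hv hβ a b c hab hbc hac
  have Ppath : ∀ t ∈ I.nbhd, ∃ x y z : ℕ, (∀ u : ℕ, (u = t.1 ∨ u = t.2.1 ∨ u = t.2.2) ↔
      (u = x ∨ u = y ∨ u = z)) ∧ P x y ∧ P y z := by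
    intro t ht
    have ht' : t ∈ triplesFrom 0 φ := ht
    rw [mem_triplesFrom] at ht'
    obtain ⟨j, hj, ⟨r, x, y, z⟩, hq, ht'⟩ := ht'
    rw [Nat.zero_add] at hq ht'
    have hcon : Con (j, r) (x, y, z) := ⟨hj, hq⟩
    let c : C := ⟨(j, r), ⟨_, hcon⟩⟩
    have hqc : qf c = (x, y, z) := Con_unique _ _ _ (hqf c) hcon
    have v0 : (v c 0).1 = x := by simp only [v, hqc]
    have v1 : (v c 1).1 = y := by simp only [v, hqc]
    have v2 : (v c 2).1 = z := by simp only [v, hqc]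
    have cc : ∀ i : Fin 4, code (.inr (c, i)) = cv j r i.val := fun i => rfl
    have cx : ∀ (t : Fin 3), code (.inl (v c t, false)) = vv (v c t).1 0 ∧
        code (.inl (v c t, true)) = vv (v c t).1 1 := fun t => ⟨rfl, rfl⟩
    have hex := hβ c
    -- general facts
    have Pcc : ∀ i i' : Fin 4, i ≠ i' → ¬ β (v c (cls i i')) → P (cv j r i.val) (cv j r i'.val) :=
      fun i i' hne hn => ⟨.inr (c, i), .inr (c, i'), rfl, rfl, rfl, hne, hn⟩
    have Pvv : ∀ t : Fin 3, ¬ β (v c t) → P (vv (v c t).1 0) (vv (v c t).1 1) :=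
      fun t hn => ⟨.inl (v c t, false), .inl (v c t, true), rfl, rfl, rfl, by simp, hn⟩
    have Pv0 : ∀ t : Fin 3, P (vv (v c t).1 0) (cv j r 0) :=
      fun t => ⟨.inl (v c t, false), .inr (c, 0), rfl, rfl, t, rfl, Or.inl rfl, Or.inr (by simp)⟩
    have Pv1 : ∀ t : Fin 3, P (vv (v c t).1 1) (cv j r (t.succ).val) :=
      fun t => ⟨.inl (v c t, true), .inr (c, t.succ), rfl, rfl, t, rfl, Or.inr rfl,
        Or.inr (by simp [Fin.succ_ne_zero])⟩
    have Pv0' : ∀ t : Fin 3, β (v c t) → P (vv (v c t).1 0) (cv j r (t.succ).val) :=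
      fun t hb => ⟨.inl (v c t, false), .inr (c, t.succ), rfl, rfl, t, rfl, Or.inr rfl, Or.inl hb⟩
    have Pv1' : ∀ t : Fin 3, β (v c t) → P (vv (v c t).1 1) (cv j r 0) :=
      fun t hb => ⟨.inl (v c t, true), .inr (c, 0), rfl, rfl, t, rfl, Or.inl rfl, Or.inl hb⟩
    -- wire quads
    have wire : ∀ t : Fin 3, ∀ u ∈ quad (vv (v c t).1 0) (vv (v c t).1 1) (cv j r 0)
        (cv j r (t.succ).val), ∃ x y z : ℕ, (∀ w : ℕ, (w = u.1 ∨ w = u.2.1 ∨ w = u.2.2) ↔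
        (w = x ∨ w = y ∨ w = z)) ∧ P x y ∧ P y z := by
      intro t
      apply quad_path P Psymm
      by_cases hb : β (v c t)
      · exact Or.inl ⟨Pv0 t, Pv0' t hb, Pv1' t hb, Pv1 t⟩
      · have hcls : cls 0 t.succ = t := cls_zero_succ t
        exact Or.inr (Or.inr ⟨Pvv t hb, Pv0 t, Pv1 t,
          Pcc 0 t.succ (Fin.succ_ne_zero t).symm (by rw [hcls]; exact hb)⟩)
    simp only [gadget, List.mem_append] at ht'
    rcases ht' with ht' | ht' | ht' | ht'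
    · refine quad_path P Psymm ?_ t ht'
      rcases hex with ⟨a0, a1, a2⟩ | ⟨a0, a1, a2⟩ | ⟨a0, a1, a2⟩
      · exact Or.inl ⟨Pcc 0 2 (by decide) a1, Pcc 0 3 (by decide) a2, Pcc 1 2 (by decide) a2,
          Pcc 1 3 (by decide) a1⟩
      · exact Or.inr (Or.inl ⟨Pcc 0 1 (by decide) a0, Pcc 0 3 (by decide) a2,
          Pcc 1 2 (by decide) a2, Pcc 2 3 (by decide) a0⟩)
      · exact Or.inr (Or.inr ⟨Pcc 0 1 (by decide) a0, Pcc 0 2 (by decide) a1,
          Pcc 1 3 (by decide) a1, Pcc 2 3 (by decide) a0⟩)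
    · have := wire 0 t
      rw [v0] at this
      exact this ht'
    · have := wire 1 t
      rw [v1] at this
      exact this ht'
    · have := wire 2 t
      rw [v2] at this
      exact this ht'
  haveI : Nonempty (Fin I.k) := ⟨⟨0, by show 0 < 58 * (fsize φ + 1); omega⟩⟩
  refine isCliqueGraph_of_triangleFree I.N (fun a b => P a.val b.val) (fun a b => Psymm _ _)
    (fun a b c => Pfree _ _ _) ?_
  intro s
  obtain ⟨x, y, z, hxyz, h1, h2⟩ := Ppath _ (List.get_mem I.nbhd s)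
  have hval := I.valid _ (List.get_mem I.nbhd s)
  have lt : ∀ u : ℕ, (u = x ∨ u = y ∨ u = z) → u < I.k := by
    intro u hu
    rcases (hxyz u).2 hu with h | h | h
    · rw [h]; exact hval.2.2.2.1
    · rw [h]; exact hval.2.2.2.2.1
    · rw [h]; exact hval.2.2.2.2.2
  refine ⟨⟨x, lt x (by simp)⟩, ⟨y, lt y (by simp)⟩, ⟨z, lt z (by simp)⟩, ?_, h1, h2⟩
  ext u
  simp only [Input.N, Set.mem_setOf_eq, Set.mem_insert_iff, Set.mem_singleton_iff, Fin.ext_iff]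
  exact hxyz u.val

theorem satisfiable_iff_isCliqueGraph (φ : Formula) :
    φ.Satisfiable ↔ IsCliqueGraph (reduce φ).graph :=
  ⟨isCliqueGraph_of_satisfiable φ, satisfiable_of_isCliqueGraph φ⟩

end Pool.Agent.Lib.MP_aad05f_lc
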