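import Pool.Agent.Lib.MP_aad05f_lc.Correct
import Pool.Agent.Lib.MP_0f8b55_lc.Code
import Pool.Agent.Lib.PolyTime.More

/-!
# The reduction is computable in polynomial time
-/

namespace Pool.Agent.Lib.MP_aad05f_lc

open Pool.Agent.Lib.PolyTime Pool.Agent.Lib.MP_0f8b55_lc

theorem fsize_eq (φ : Formula) : fsize φ = (φ.map (fun c => 3 + c.1.1 + c.2.1.1 + c.2.2.1)).sum := by
  induction φ with
  | nil => rfl
  | cons c φ ih => rw [fsize, ih, List.map_cons, List.sum_cons]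

theorem triplesFrom_eq (i : ℕ) (φ : Formula) :
    triplesFrom i φ = (φ.zipIdx i).flatMap (fun ci => clauseTriples ci.2 ci.1) := by
  induction φ generalizing i with
  | nil => rfl
  | cons c φ ih => rw [triplesFrom, ih, List.zipIdx_cons, List.flatMap_cons]

section pt

variable {α : Type} [Enc α]

theorem PT.listSum {f : α → List ℕ} (hf : PT f) : PT (fun a => (f a).sum) := by
  refine (PT.length (hf.flatMap (g := fun _ n => List.replicate n ())
    (PT.replicateUnit PT.snd))).congr (fun a => ?_)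
  simp [List.length_flatMap]

theorem PT.vv {x : α → ℕ × ℕ} {s : α → ℕ} (hx : PT x) (hs : PT s) :
    PT (fun a => vv (x a) (s a)) :=
  (hx.fst'.mulConst 58).add ((hx.snd'.mulConst 2).add hs)

theorem PT.cv {i r : α → ℕ} (hi : PT i) (hr : PT r) (j : ℕ) :
    PT (fun a => cv (i a) (r a) j) :=
  (hi.mulConst 58).add (((PT.const 12).add (hr.mulConst 4)).addConst j)

theorem PT.quad {f g h k : α → ℕ} (hf : PT f) (hg : PT g) (hh : PT h) (hk : PT k) :
    PT (fun a => quad (f a) (g a) (h a) (k a)) :=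
  PT.cons (hg.pair (hh.pair hk)) (PT.cons (hf.pair (hh.pair hk)) (PT.cons (hf.pair (hg.pair hk))
    (PT.cons (hf.pair (hg.pair hh)) (PT.const []))))

theorem PT.gadget {i r : α → ℕ} {x y z : α → ℕ × ℕ} (hi : PT i) (hr : PT r) (hx : PT x)
    (hy : PT y) (hz : PT z) : PT (fun a => gadget (i a) (r a) (x a) (y a) (z a)) := by
  have c0 := PT.cv hi hr 0
  have c1 := PT.cv hi hr 1
  have c2 := PT.cv hi hr 2
  have c3 := PT.cv hi hr 3
  exact (PT.quad c0 c1 c2 c3).append ((PT.quad (PT.vv hx (PT.const 0)) (PT.vv hx (PT.const 1))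
    c0 c1).append ((PT.quad (PT.vv hy (PT.const 0)) (PT.vv hy (PT.const 1)) c0 c2).append
      (PT.quad (PT.vv hz (PT.const 0)) (PT.vv hz (PT.const 1)) c0 c3)))

theorem PT.boolNat {b : α → Bool} (hb : PT b) (m n : ℕ) : PT (fun a => if b a then m else n) :=
  PT.ite (c := fun a => b a = true) (hb.congr (fun a => by simp)) (PT.const m) (PT.const n)

theorem PT.litVar {l : α → ℕ × Bool} (hl : PT l) : PT (fun a => litVar (l a)) :=
  hl.fst'.pair (PT.boolNat hl.snd' 0 1)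

theorem PT.litNeg {l : α → ℕ × Bool} (hl : PT l) : PT (fun a => litNeg (l a)) :=
  hl.fst'.pair (PT.boolNat hl.snd' 1 0)

theorem PT.rcl {i : α → ℕ} {c : α → (ℕ × Bool) × (ℕ × Bool) × (ℕ × Bool)} (hi : PT i)
    (hc : PT c) : PT (fun a => rcl (i a) (c a)) := by
  have l1 := hc.fst'
  have l2 := hc.snd'.fst'
  have l3 := hc.snd'.snd'
  have p : ∀ {f : α → ℕ} (_ : PT f) (k : ℕ), PT (fun a => (f a, k)) :=
    fun hf k => hf.pair (PT.const k)
  have k : ∀ (m : ℕ) {x y z : α → ℕ × ℕ}, PT x → PT y → PT z →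
      PT (fun a => (m, x a, y a, z a)) := fun m _ _ _ hx hy hz =>
    (PT.const m).pair (hx.pair (hy.pair hz))
  exact PT.cons (k 0 (PT.litNeg l1) (p hi 2) (p hi 3)) (PT.cons
    (k 1 (PT.litVar l2) (p hi 3) (p hi 4)) (PT.cons (k 2 (PT.litNeg l3) (p hi 4) (p hi 5))
    (PT.cons (k 3 (p l1.fst' 0) (p l1.fst' 1) (PT.const (0, 24))) (PT.cons
    (k 4 (p l2.fst' 0) (p l2.fst' 1) (PT.const (0, 24))) (PT.cons
    (k 5 (p l3.fst' 0) (p l3.fst' 1) (PT.const (0, 24)))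
    (PT.const [(6, (0, 25), (0, 26), (0, 27)), (7, (0, 25), (0, 26), (0, 24)),
      (8, (0, 24), (0, 27), (0, 28))]))))))

theorem PT.clauseTriples {i : α → ℕ} {c : α → (ℕ × Bool) × (ℕ × Bool) × (ℕ × Bool)} (hi : PT i)
    (hc : PT c) : PT (fun a => clauseTriples (i a) (c a)) :=
  PT.flatMap (PT.rcl hi hc) (g := fun a (q : ℕ × (ℕ × ℕ) × (ℕ × ℕ) × (ℕ × ℕ)) =>
    MP_aad05f_lc.gadget (i a) q.1 q.2.1 q.2.2.1 q.2.2.2)
    (PT.gadget (hi.comp PT.fst) PT.snd.fst' PT.snd.snd'.fst' PT.snd.snd'.snd'.fst'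
      PT.snd.snd'.snd'.snd')

end pt

instance encInput : Enc Input := Enc.ofInj (fun I => (I.k, I.nbhd)) (by
  rintro ⟨k, l, h⟩ ⟨k', l', h'⟩ e
  simp only [Prod.mk.injEq] at e
  obtain ⟨rfl, rfl⟩ := e
  rfl)

theorem pt_reduce : PT reduce := by
  have h1 : PT (fun φ : Formula => 58 * (fsize φ + 1)) := by
    refine PT.mulConst (PT.addConst ((PT.listSum (PT.map PT.id
      (g := fun _ (c : (ℕ × Bool) × (ℕ × Bool) × (ℕ × Bool)) => 3 + c.1.1 + c.2.1.1 + c.2.2.1)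
      ?_)).congr (fun φ => (fsize_eq φ).symm)) 1) 58
    exact ((((PT.const 3).add PT.snd.fst'.fst').add PT.snd.snd'.fst'.fst').add
      PT.snd.snd'.snd'.fst')
  have h2 : PT (fun φ : Formula => triplesFrom 0 φ) :=
    (PT.flatMap (PT.zipIdx PT.id) (g := fun _ (ci : ((ℕ × Bool) × (ℕ × Bool) × (ℕ × Bool)) × ℕ) =>
      MP_aad05f_lc.clauseTriples ci.2 ci.1) (PT.clauseTriples PT.snd.snd' PT.snd.fst')).congr
      (fun φ => (triplesFrom_eq 0 φ).symm)
  exact PT.congr_enc (h1.pair h2) (fun φ => rfl)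

end Pool.Agent.Lib.MP_aad05f_lc
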