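import Mathlib
import Pool.Agent.Lib.MP_aad05f_lc.Correct

set_option autoImplicit false

namespace Pool.Agent.Results.MP_aad05f_lc.ThreeSatReduction

open Pool.Agent.Lib.MP_aad05f_lc

/-- Membership in `3split₃` together with the partition: `K` is complete, `S` is stable, they
partition the vertices, and every vertex of `S` has exactly three neighbours. -/
def Is3split3 {V : Type} (G : SimpleGraph V) (K S : Set V) : Prop :=
  K ∪ S = Set.univ ∧ K ∩ S = ∅ ∧ G.IsClique K ∧ G.IsIndepSet S ∧ ∀ s ∈ S, (G.neighborSet s).ncard = 3

theorem is3split3_graph (I : Input) :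
    Is3split3 I.graph (Set.range Sum.inl) (Set.range Sum.inr) := by
  refine ⟨?_, ?_, ?_, ?_, ?_⟩
  · exact Set.range_inl_union_range_inr
  · exact Set.range_inl_inter_range_inr
  · rintro _ ⟨a, rfl⟩ _ ⟨b, rfl⟩ hab
    exact fun h => hab (by rw [h])
  · rintro _ ⟨a, rfl⟩ _ ⟨b, rfl⟩ hab
    exact fun h => h
  · rintro _ ⟨s, rfl⟩
    obtain ⟨h1, h2, h3, h4, h5, h6⟩ := I.valid _ (List.get_mem I.nbhd s)
    have : I.graph.neighborSet (Sum.inr s) =
        {Sum.inl ⟨(I.nbhd.get s).1, h4⟩, Sum.inl ⟨(I.nbhd.get s).2.1, h5⟩,
          Sum.inl ⟨(I.nbhd.get s).2.2, h6⟩} := by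
      ext u
      rcases u with a | t
      · constructor
        · intro h
          have h' : a ∈ I.N s := h
          rcases h' with h' | h' | h'
          · left; rw [Sum.inl.injEq]; exact Fin.ext h'
          · right; left; rw [Sum.inl.injEq]; exact Fin.ext h'
          · right; right; exact congrArg Sum.inl (Fin.ext h')
        · intro h
          show a ∈ I.N s
          rcases h with h | h | h
          · rw [Sum.inl.injEq] at h; left; rw [h]
          · rw [Sum.inl.injEq] at h; right; left; rw [h]
          · have h := Sum.inl.inj (Set.mem_singleton_iff.1 h); right; right; rw [h]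
      · constructor
        · intro h
          exact absurd h (fun h => h)
        · intro h
          rcases h with h | h | h
          · exact absurd h (by simp)
          · exact absurd h (by simp)
          · exact absurd (Set.mem_singleton_iff.1 h) (by simp)
    rw [this, Set.ncard_eq_three]
    refine ⟨_, _, _, ?_, ?_, ?_, rfl⟩
    · intro h; exact h1 (congrArg Fin.val (Sum.inl.inj h))
    · intro h; exact h2 (congrArg Fin.val (Sum.inl.inj h))
    · intro h; exact h3 (congrArg Fin.val (Sum.inl.inj h))

theorem triplesFrom_length (φ : Formula) (i : ℕ) : (triplesFrom i φ).length = 144 * φ.length := by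
  induction φ generalizing i with
  | nil => rfl
  | cons c φ ih =>
    rw [triplesFrom, List.length_append, ih, List.length_cons]
    simp only [clauseTriples, rcl, gadget, quad, List.flatMap_cons, List.flatMap_nil,
      List.length_append, List.length_cons, List.length_nil]
    ring

/-- **The reduction.** For every 3-CNF formula `φ` the explicitly given graph `(reduce φ).graph`
belongs to `3split₃`, has `58 * (fsize φ + 1) + 144 * φ.length` vertices, and is a clique graph if
and only if `φ` is satisfiable. -/
theorem result (φ : Formula) :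
    Is3split3 (reduce φ).graph (Set.range Sum.inl) (Set.range Sum.inr) ∧
    Nat.card (Fin (reduce φ).k ⊕ Fin (reduce φ).nbhd.length) =
      58 * (fsize φ + 1) + 144 * φ.length ∧
    (φ.Satisfiable ↔ IsCliqueGraph (reduce φ).graph) := by
  refine ⟨is3split3_graph _, ?_, satisfiable_iff_isCliqueGraph φ⟩
  rw [Nat.card_sum, Nat.card_fin, Nat.card_fin]
  show 58 * (fsize φ + 1) + (triplesFrom 0 φ).length = _
  rw [triplesFrom_length]

end Pool.Agent.Results.MP_aad05f_lc.ThreeSatReduction
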